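import Pool.Agent.Helper5.SR.St4

/-!
Module CLT of project SR (MP_d6acc2_an).
-/

set_option autoImplicit false

namespace Pool.Agent.Helper5.SRC

open Complex MeasureTheory Set Metric Filter Topology
open scoped Real
open Pool.Agent.Helper60.Rel (LH tc Admissible ClassS)
open Helper5.SR Pool.Agent.Helper51.LT

theorem hClt (hLD : StLD) : StClt := by
  intro C T M hM hC0 hCM hT
  obtain ⟨hTd, hTi, hTp, hTr, hTc⟩ := hT
  have hM1 : (1 : ℝ) ≤ M := by exact_mod_cast hM
  have hM0 : (0 : ℝ) < M := by linarith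
  have hMc : (M : ℂ) ≠ 0 := by exact_mod_cast hM0.ne'
  have hmem : ∀ ζ ∈ LH, (M : ℂ) * ζ ∈ LH := by
    intro ζ hζ
    have h1 : ζ.re < 0 := hζ
    show ((M : ℂ) * ζ).re < 0
    have : ((M : ℂ) * ζ).re = M * ζ.re := by simp
    rw [this]
    exact mul_neg_of_pos_of_neg hM0 h1
  have hper : ∀ n : ℕ, ∀ ζ ∈ LH, T (ζ + 2 * π * I * n) = T ζ + 2 * π * I * n := by
    intro n
    induction n with
    | zero => intro ζ _; simp
    | succ n ih =>
      intro ζ hζ
      have h1 : ζ + 2 * π * I * n ∈ LH := by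
        show (ζ + 2 * π * I * n).re < 0
        have : (ζ + 2 * π * I * n).re = ζ.re := by simp
        rw [this]
        exact hζ
      have h2 := hTp _ h1
      rw [ih ζ hζ] at h2
      push_cast
      have e : ζ + 2 * π * I * ((n : ℂ) + 1) = ζ + 2 * π * I * n + 2 * π * I := by ring
      rw [e, h2]
      ring
  have hreM : ∀ w : ℂ, (w / (M : ℂ)).re = w.re / M := by
    intro w
    rw [show w / (M : ℂ) = w / ((M : ℝ) : ℂ) by norm_cast, div_ofReal_re]
  obtain ⟨φ, h1, h2, h3, h4⟩ := hLD (fun ζ => T (M * ζ) / M) (by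
    apply DifferentiableOn.div_const
    exact hTd.comp (differentiableOn_id.const_mul _) hmem) (by
    intro x hx y hy h
    have h5 : T (M * x) = T (M * y) := by
      have : T (M * x) / M = T (M * y) / M := h
      rwa [div_left_inj' hMc] at this
    exact mul_left_cancel₀ hMc (hTi (hmem x hx) (hmem y hy) h5)) (by
    intro ζ hζ
    show (T (M * ζ) / M).re ≤ ζ.re
    rw [hreM, div_le_iff₀ hM0]
    have := hTr _ (hmem ζ hζ)
    have e : ((M : ℂ) * ζ).re = M * ζ.re := by simp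
    rw [e] at this
    linarith) (by
    intro ζ hζ
    show T (M * (ζ + 2 * π * I)) / M = T (M * ζ) / M + 2 * π * I
    have := hper M _ (hmem ζ hζ)
    have e : (M : ℂ) * (ζ + 2 * π * I) = M * ζ + 2 * π * I * M := by ring
    rw [e, this]
    field_simp)
  refine ⟨φ, h1, h2, h3, h4, ?_⟩
  intro r hr0 hr1 hMr z hz
  by_cases hz0 : z = 0
  · rw [hz0, h2]
    simp
    positivity
  have hzp : 0 < ‖z‖ := norm_pos_iff.2 hz0
  set ζ : ℂ := log z with hζ
  have hez : exp ζ = z := exp_log hz0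
  have hre : ζ.re = Real.log ‖z‖ := by rw [hζ, log_re]
  have hlog : ζ.re ≤ Real.log r := by
    rw [hre]
    exact Real.log_le_log hzp hz
  have hlr : Real.log (1 / r) = -Real.log r := by rw [one_div, Real.log_inv]
  rw [hlr] at hMr
  have hMζ : ((M : ℂ) * ζ).re ≤ -1 := by
    have e : ((M : ℂ) * ζ).re = M * ζ.re := by simp
    rw [e]
    nlinarith
  have hζL : ζ ∈ LH := by
    show ζ.re < 0
    exact lt_of_le_of_lt hlog (Real.log_neg hr0 hr1)
  have h5 := hTc _ hMζ
  have h6 := h4 ζ hζL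
  rw [hez] at h6
  have e2 : T (M * ζ) / M = ζ + (T (M * ζ) - M * ζ) / M := by
    field_simp
    ring
  rw [e2, exp_add, hez] at h6
  rw [h6]
  set δ : ℂ := (T (M * ζ) - M * ζ) / M with hδ
  have h7 : ‖δ‖ ≤ C / M := by
    rw [hδ, norm_div, norm_natCast]
    exact div_le_div_of_nonneg_right h5 hM0.le
  have h8 : C / M ≤ 1 := by rw [div_le_one hM0]; exact hCM
  have h9 : ‖exp δ - 1‖ ≤ 2 * ‖δ‖ := Complex.norm_exp_sub_one_le (h7.trans h8)
  have e3 : z * exp δ - z = z * (exp δ - 1) := by ring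
  rw [e3, norm_mul]
  have hz1 : ‖z‖ ≤ 1 := hz.trans hr1.le
  calc ‖z‖ * ‖exp δ - 1‖ ≤ 1 * (2 * ‖δ‖) :=
        mul_le_mul hz1 h9 (norm_nonneg _) zero_le_one
    _ ≤ 2 * C / M := by
        have : 2 * C / (M : ℝ) = 2 * (C / M) := by ring
        rw [this]
        linarith

end Pool.Agent.Helper5.SRC
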