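import Pool.Agent.Helper5.SR.St1

/-!
Module LD of project SR (MP_d6acc2_an).
-/

set_option autoImplicit false

namespace Pool.Agent.Helper5.SRD

open Complex MeasureTheory Set Metric Filter Topology
open scoped Real
open Pool.Agent.Helper60.Rel (LH tc Admissible ClassS)
open Helper5.SR Pool.Agent.Helper51.LT

theorem per_nat {P : ℂ → ℂ} (hP : ∀ ζ ∈ LH, P (ζ + 2 * π * I) = P ζ + 2 * π * I) (n : ℕ) :
    ∀ ζ ∈ LH, P (ζ + n * (2 * π * I)) = P ζ + n * (2 * π * I) := by
  induction n with
  | zero => intro ζ _; simp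
  | succ n ih =>
    intro ζ hζ
    have h1 : ζ + n * (2 * π * I) ∈ LH := by
      show (ζ + n * (2 * π * I)).re < 0
      have : (ζ + n * (2 * π * I)).re = ζ.re := by simp
      rw [this]
      exact hζ
    have h2 := hP _ h1
    rw [ih ζ hζ] at h2
    push_cast
    have e : ζ + ((n : ℂ) + 1) * (2 * π * I) = ζ + n * (2 * π * I) + 2 * π * I := by ring
    rw [e, h2]
    ring

theorem per_int {P : ℂ → ℂ} (hP : ∀ ζ ∈ LH, P (ζ + 2 * π * I) = P ζ + 2 * π * I) (n : ℤ) :
    ∀ ζ ∈ LH, P (ζ + n * (2 * π * I)) = P ζ + n * (2 * π * I) := by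
  intro ζ hζ
  obtain ⟨k, hk | hk⟩ := n.eq_nat_or_neg
  · rw [hk]
    exact_mod_cast per_nat hP k ζ hζ
  · have h1 : ζ + (n : ℂ) * (2 * π * I) ∈ LH := by
      show (ζ + (n : ℂ) * (2 * π * I)).re < 0
      have : (ζ + (n : ℂ) * (2 * π * I)).re = ζ.re := by simp
      rw [this]
      exact hζ
    have h2 := per_nat hP k _ h1
    have e : ζ + (n : ℂ) * (2 * π * I) + k * (2 * π * I) = ζ := by
      rw [hk]
      push_cast
      ring
    rw [e] at h2
    rw [h2, hk]
    push_cast
    ring

theorem hLD : StLD := by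
  intro P hd hi hr hp
  classical
  set φ : ℂ → ℂ := fun z => if z = 0 then 0 else exp (P (log z)) with hφ
  have hlog : ∀ z ∈ ball (0 : ℂ) 1, z ≠ 0 → log z ∈ LH := by
    intro z hz hz0
    show (log z).re < 0
    rw [log_re]
    rw [mem_ball_zero_iff] at hz
    exact Real.log_neg (norm_pos_iff.2 hz0) hz
  have h4 : ∀ ζ ∈ LH, φ (exp ζ) = exp (P ζ) := by
    intro ζ hζ
    have h0 : exp ζ ≠ 0 := exp_ne_zero ζ
    rw [hφ]
    simp only [h0, if_false]
    have h1 : exp (log (exp ζ)) = exp ζ := exp_log h0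
    obtain ⟨n, hn⟩ := exp_eq_exp_iff_exists_int.1 h1
    rw [hn, per_int hp n ζ hζ, exp_add, exp_int_mul_two_pi_mul_I, mul_one]
  have hφ0 : φ 0 = 0 := by simp [hφ]
  have hle : ∀ z ∈ ball (0 : ℂ) 1, ‖φ z‖ ≤ ‖z‖ := by
    intro z hz
    by_cases hz0 : z = 0
    · rw [hz0, hφ0]
    · have h1 := hlog z hz hz0
      have h2 := h4 _ h1
      rw [exp_log hz0] at h2
      rw [h2, norm_exp]
      calc Real.exp (P (log z)).re ≤ Real.exp (log z).re := Real.exp_le_exp.2 (hr _ h1)
        _ = ‖z‖ := by rw [log_re, Real.exp_log (norm_pos_iff.2 hz0)]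
  have hdiff0 : DifferentiableOn ℂ φ (ball 0 1 \ {0}) := by
    intro z₀ hz₀
    have hz0 : z₀ ≠ 0 := hz₀.2
    apply DifferentiableAt.differentiableWithinAt
    have hslit : z₀ / z₀ ∈ slitPlane := by
      rw [div_self hz0]
      exact one_mem_slitPlane
    set b : ℂ → ℂ := fun z => log z₀ + log (z / z₀) with hb
    have hbd : DifferentiableAt ℂ b z₀ := by
      rw [hb]
      apply DifferentiableAt.const_add
      exact DifferentiableAt.clog (differentiableAt_id.div_const z₀) hslit
    have hbz : b z₀ = log z₀ := by rw [hb]; simp [div_self hz0]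
    have hPd : DifferentiableAt ℂ P (b z₀) := by
      rw [hbz]
      have hopen : IsOpen (LH : Set ℂ) := isOpen_lt continuous_re continuous_const
      exact hd.differentiableAt (hopen.mem_nhds (hlog z₀ hz₀.1 hz0))
    have hcomp : DifferentiableAt ℂ (fun z => exp (P (b z))) z₀ :=
      (DifferentiableAt.comp z₀ hPd hbd).cexp
    refine hcomp.congr_of_eventuallyEq ?_
    have hev1 : ∀ᶠ z in 𝓝 z₀, z ∈ ball (0 : ℂ) 1 := isOpen_ball.mem_nhds hz₀.1
    have hev2 : ∀ᶠ z in 𝓝 z₀, z ≠ 0 := isOpen_ne.mem_nhds hz0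
    filter_upwards [hev1, hev2] with z hz1 hz2
    have hdz : z / z₀ ≠ 0 := div_ne_zero hz2 hz0
    have he : exp (b z) = z := by
      rw [hb]
      simp only
      rw [exp_add, exp_log hz0, exp_log hdz]
      field_simp
    have hbL : b z ∈ LH := by
      show (b z).re < 0
      have h5 : ‖exp (b z)‖ < 1 := by rw [he]; rwa [mem_ball_zero_iff] at hz1
      rw [norm_exp] at h5
      exact Real.exp_lt_one_iff.1 h5
    have := h4 _ hbL
    rw [he] at this
    exact this
  have hcont : ContinuousAt φ 0 := by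
    rw [Metric.continuousAt_iff]
    intro ε hε
    refine ⟨min ε 1, lt_min hε one_pos, ?_⟩
    intro z hz
    rw [dist_zero_right] at hz
    rw [hφ0, dist_zero_right]
    have h1 := hle z (by rw [mem_ball_zero_iff]; exact hz.trans_le (min_le_right _ _))
    exact lt_of_le_of_lt h1 (hz.trans_le (min_le_left _ _))
  have hdiff : DifferentiableOn ℂ φ (ball 0 1) :=
    (Complex.differentiableOn_compl_singleton_and_continuousAt_iff
      (isOpen_ball.mem_nhds (by simp))).1 ⟨hdiff0, hcont⟩
  have hinj : InjOn φ (ball 0 1) := by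
    intro z hz w hw h
    by_cases hz0 : z = 0
    · by_cases hw0 : w = 0
      · rw [hz0, hw0]
      · exfalso
        have h1 : φ w = exp (P (log w)) := by simp [hφ, hw0]
        rw [hz0, hφ0, h1] at h
        exact exp_ne_zero _ h.symm
    · by_cases hw0 : w = 0
      · exfalso
        have h1 : φ z = exp (P (log z)) := by simp [hφ, hz0]
        rw [hw0, hφ0, h1] at h
        exact exp_ne_zero _ h
      · have h1 : φ w = exp (P (log w)) := by simp [hφ, hw0]
        have h2 : φ z = exp (P (log z)) := by simp [hφ, hz0]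
        rw [h1, h2] at h
        obtain ⟨n, hn⟩ := exp_eq_exp_iff_exists_int.1 h
        rw [← per_int hp n _ (hlog w hw hw0)] at hn
        have hmem : log w + (n : ℂ) * (2 * π * I) ∈ LH := by
          show (log w + (n : ℂ) * (2 * π * I)).re < 0
          have : (log w + (n : ℂ) * (2 * π * I)).re = (log w).re := by simp
          rw [this]
          exact hlog w hw hw0
        have h3 := hi (hlog z hz hz0) hmem hn
        have h4 : exp (log z) = exp (log w) := by
          rw [h3, exp_add, exp_int_mul_two_pi_mul_I, mul_one]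
        rwa [exp_log hz0, exp_log hw0] at h4
  refine ⟨φ, ⟨⟨hdiff, hinj⟩, ?_⟩, hφ0, hle, h4⟩
  intro z hz
  have h1 := hle z hz
  rw [mem_ball_zero_iff] at hz
  linarith

end Pool.Agent.Helper5.SRD
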