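import Pool.Agent.Helper5.SR.St4

/-!
Module LOW of project SR (MP_d6acc2_an).
-/

set_option autoImplicit false

namespace Pool.Agent.Helper5.SRL

open Complex MeasureTheory Set Metric Filter Topology
open scoped Real
open Pool.Agent.Helper60.Rel (LH tc Admissible ClassS)
open Helper5.SR Pool.Agent.Helper51.LT

theorem rob_and {p q : (ℂ → ℂ) → Prop} {f : ℂ → ℂ} (hp : Rob p f) (hq : Rob q f) :
    Rob (fun F => p F ∧ q F) f := by
  obtain ⟨η₁, h1, r₁, h2, h3, h4⟩ := hp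
  obtain ⟨η₂, k1, r₂, k2, k3, k4⟩ := hq
  refine ⟨min η₁ η₂, lt_min h1 k1, max r₁ r₂, le_trans h2 (le_max_left _ _), max_lt h3 k3, ?_⟩
  intro F hF hc
  refine ⟨h4 F hF ?_, k4 F hF ?_⟩
  · intro z hz
    exact le_trans (hc z (le_trans hz (le_max_left _ _))) (min_le_left _ _)
  · intro z hz
    exact le_trans (hc z (le_trans hz (le_max_right _ _))) (min_le_right _ _)

theorem low_core (hGH : StGH) (hInj : StInj) (hTcd : StTcd) (m : ℕ) (α : ℝ)
    (step : ∀ f : ℂ → ℂ, PP2 f → ∀ (η r : ℝ) (j : ℕ), 0 < η → r < 1 →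
      ∃ f₁, PP2 f₁ ∧ (∀ z : ℂ, ‖z‖ ≤ r → ‖f₁ z - f z‖ ≤ η) ∧ Rob (QW m α j) f₁) :
    ∃ f : ℂ → ℂ, ClassS f ∧ ∀ j : ℕ, QW m α j f := by
  have hdiff : ∀ f, PP2 f → DifferentiableOn ℂ f (ball 0 1) := by
    rintro f ⟨⟨R, hR, hf, -⟩, -⟩
    exact hf.mono (ball_subset_ball hR.le)
  have hid : PP2 (fun z : ℂ => z) := by
    refine ⟨⟨2, by norm_num, differentiableOn_id, fun x _ y _ h => h⟩, rfl⟩
  have hrho : ∀ j : ℕ, 0 ≤ 1 - 1 / ((j : ℝ) + 2) ∧ 1 - 1 / ((j : ℝ) + 2) < 1 := by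
    intro j
    have hj : (0 : ℝ) ≤ j := Nat.cast_nonneg j
    have h2 : 0 < 1 / ((j : ℝ) + 2) := by positivity
    have h3 : 1 / ((j : ℝ) + 2) ≤ 1 := by
      rw [div_le_one (by positivity)]
      linarith
    constructor <;> linarith
  obtain ⟨F, hF, hq, hclose, s, hs, hlim⟩ := hGH PP2
    (fun j F => QW m α j F ∧ InjOn F (closedBall 0 (1 - 1 / ((j : ℝ) + 2)))) (fun z : ℂ => z)
    hdiff hid (by
      intro f hf η r j hη hr
      obtain ⟨f₁, h1, h2, h3⟩ := step f hf η r j hη hr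
      refine ⟨f₁, h1, h2, rob_and h3 ?_⟩
      obtain ⟨⟨R, hR, hU⟩, -⟩ := h1
      exact hInj f₁ R _ hR hU (hrho j).1 (hrho j).2) (1 / 4) (by norm_num)
  have hinj : InjOn F (ball 0 1) := by
    intro z hz w hw h
    rw [mem_ball_zero_iff] at hz hw
    have hm : 0 < 1 - max ‖z‖ ‖w‖ := by
      have := max_lt hz hw
      linarith
    obtain ⟨j, hj⟩ := exists_nat_one_div_lt hm
    have hj2 : 1 / ((j : ℝ) + 2) ≤ 1 / ((j : ℝ) + 1) := by
      apply one_div_le_one_div_of_le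
      · positivity
      · linarith
    refine (hq j).2 ?_ ?_ h
    · rw [mem_closedBall_zero_iff]
      have := le_max_left ‖z‖ ‖w‖
      linarith
    · rw [mem_closedBall_zero_iff]
      have := le_max_right ‖z‖ ‖w‖
      linarith
  have hF0 : F 0 = 0 := by
    have h1 := hlim 0 (by simp)
    have h2 : (fun k => s k 0) = fun _ => (0 : ℂ) := by
      funext k
      exact (hs k).2
    rw [h2] at h1
    exact (tendsto_nhds_unique h1 tendsto_const_nhds)
  have hFd : DifferentiableAt ℂ F 0 :=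
    hF.differentiableAt (isOpen_ball.mem_nhds (by simp))
  have ha : ‖deriv F 0 - 1‖ ≤ 1 / 2 := by
    have hd : DiffContOnCl ℂ (fun z => F z - z) (ball 0 (1 / 2)) := by
      apply DifferentiableOn.diffContOnCl
      rw [closure_ball _ (by norm_num)]
      exact (hF.mono (closedBall_subset_ball (by norm_num))).sub differentiableOn_id
    have h := Complex.norm_deriv_le_of_forall_mem_sphere_norm_le (by norm_num : (0 : ℝ) < 1 / 2) hd
      (C := 1 / 4) (by
        intro z hz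
        refine hclose z ?_
        rw [mem_sphere_zero_iff_norm] at hz
        exact hz.le)
    have h2 : deriv (fun z => F z - z) 0 = deriv F 0 - 1 := by
      have := (hFd.hasDerivAt.sub (hasDerivAt_id' (0 : ℂ))).deriv
      exact this
    rw [h2] at h
    linarith
  set a := deriv F 0 with hadef
  have ha2 : ‖a‖ ≤ 2 := by
    have h1 : ‖a‖ ≤ ‖a - 1‖ + ‖(1 : ℂ)‖ := by
      have := norm_add_le (a - 1) 1
      simpa using this
    rw [norm_one] at h1
    linarith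
  have ha0 : a ≠ 0 := by
    intro h
    rw [h] at ha
    norm_num at ha
  have hapos : 0 < ‖a‖ := norm_pos_iff.2 ha0
  refine ⟨fun z => a⁻¹ * F z, ⟨?_, ?_, ?_, ?_⟩, ?_⟩
  · exact hF.const_mul _
  · intro z hz w hw h
    exact hinj hz hw (mul_left_cancel₀ (inv_ne_zero ha0) h)
  · simp [hF0]
  · have := (hFd.hasDerivAt.const_mul a⁻¹).deriv
    rw [this, ← hadef]
    exact inv_mul_cancel₀ ha0
  · intro j
    obtain ⟨n, hn, hn1, hlt⟩ := (hq (2 * j)).1
    refine ⟨n, by omega, hn1, ?_⟩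
    intro c hc hc1
    obtain ⟨i, hi, hlt2⟩ := hlt c hc hc1
    refine ⟨i, hi, ?_⟩
    have e1 : ∑ k : Fin (m + 1), c k * tc (fun z => a⁻¹ * F z) (n + i + k) =
        a⁻¹ * ∑ k : Fin (m + 1), c k * tc F (n + i + k) := by
      rw [Finset.mul_sum]
      refine Finset.sum_congr rfl fun k _ => ?_
      rw [hTcd.2.2 F a⁻¹ _ hF]
      ring
    rw [e1, norm_mul, norm_inv]
    have hT0 : (0 : ℝ) ≤ (j : ℝ) * (n : ℝ) ^ α := by positivity
    push_cast at hlt2
    have h3 : (j : ℝ) * (n : ℝ) ^ α * ‖a‖ < ‖∑ k : Fin (m + 1), c k * tc F (n + i + k)‖ := by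
      have : (j : ℝ) * (n : ℝ) ^ α * ‖a‖ ≤ (j : ℝ) * (n : ℝ) ^ α * 2 :=
        mul_le_mul_of_nonneg_left ha2 hT0
      nlinarith
    rw [inv_mul_eq_div, lt_div_iff₀ hapos]
    exact h3

theorem hLow (hNn : StNn) (hSup : StSup) (hMas : StMas) (hPer : StPer) (hNad : StNad)
    (hGH : StGH) (hInj : StInj) (hTcd : StTcd) : StLow := by
  intro m j hm hj hjm hB0 hB1 hB2 hB3 α hα
  have hS : ∀ β : ℝ, β < Bb → Sup β := by
    intro β hβ
    apply hSup
    right
    exact ⟨(β + Bb) / 2, by linarith, HU_of_lt hNn (by linarith)⟩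
  set ε : ℝ := (vb m j Bb - α) / 2 with hε
  have hε0 : 0 < ε := by rw [hε]; linarith
  have hvb : vb m j Bb = -1 + Bb + (2 / j - Bb) * qr Bb ^ (m + 1 - j) := rfl
  have hv : α + 1 < Bb + (2 / j - Bb) * qr Bb ^ (m + 1 - j) - ε := by
    have : Bb + (2 / j - Bb) * qr Bb ^ (m + 1 - j) = vb m j Bb + 1 := by rw [hvb]; ring
    rw [this, hε]
    linarith
  obtain ⟨f, hf, hq⟩ := low_core hGH hInj hTcd m α (by
    rintro f ⟨⟨R, hR, hU⟩, hf0⟩ η r i hη hr
    have hr0 : 0 ≤ max r 0 := le_max_right _ _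
    have hr1 : max r 0 < 1 := max_lt hr one_pos
    obtain ⟨M, θ, s₀, hM, hs₀, hθ, hN⟩ := hMas m j Bb hm hj hjm hB0 hB1 hB2 hB3 hS ε hε0 f R hR hU hf0
      (η / 4) ((1 + max r 0) / 2) (by linarith) (by linarith) (by linarith)
    obtain ⟨N₀, hN₀⟩ := hPer m α _ hv f R hR hU hf0 θ M s₀ hθ hM hs₀ η (max r 0) i hη hr0 hr1
    obtain ⟨N, F, h1, h2, h3⟩ := hN N₀
    obtain ⟨f₁, k1, k2, k3⟩ := hN₀ N F h1 h2 h3
    exact ⟨f₁, k1, fun z hz => k2 z (hz.trans (le_max_left _ _)), k3⟩)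
  exact hNad m α f hm hf hq

end Pool.Agent.Helper5.SRL
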