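import Pool.Agent.Helper5.SR.St4

/-!
Module MAS of project SR (MP_d6acc2_an).
-/

set_option autoImplicit false

namespace Pool.Agent.Helper5.SRM

open Complex MeasureTheory Set Metric Filter Topology
open scoped Real
open Pool.Agent.Helper60.Rel (LH tc Admissible ClassS)
open Helper5.SR Pool.Agent.Helper51.LT

theorem exp_mem {σ : ℝ} (hσ : 0 < σ) (ω : ℝ) : exp (-(σ : ℂ) + ω * I) ∈ ball (0 : ℂ) 1 := by
  rw [mem_ball_zero_iff, norm_exp]
  simp [hσ]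

theorem cont_deriv {G : ℂ → ℂ} (hG : DifferentiableOn ℂ G (ball 0 1)) {σ : ℝ} (hσ : 0 < σ) :
    Continuous (fun ω : ℝ => ‖deriv G (exp (-(σ : ℂ) + ω * I))‖) := by
  have h1 : ContinuousOn (deriv G) (ball 0 1) := (hG.deriv isOpen_ball).continuousOn
  refine Continuous.norm ?_
  refine h1.comp_continuous ?_ (fun ω => exp_mem hσ ω)
  fun_prop

/-- comparison of the masses -/
theorem mass_le {F G : ℂ → ℂ} (hF : DifferentiableOn ℂ F (ball 0 1))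
    (hG : DifferentiableOn ℂ G (ball 0 1)) {σ c₁ θ ρ ρ' : ℝ} (hσ : 0 < σ) (h0 : 0 ≤ ρ) (hρ : ρ ≤ ρ')
    (h : ∀ z ∈ ball (0 : ℂ) 1, c₁ * ‖deriv G z‖ ≤ ‖deriv F z‖) :
    c₁ * ∫ ω in (θ - ρ)..(θ + ρ), ‖deriv G (exp (-(σ : ℂ) + ω * I))‖ ≤
      ∫ ω in (θ - ρ')..(θ + ρ'), ‖deriv F (exp (-(σ : ℂ) + ω * I))‖ := by
  rw [← intervalIntegral.integral_const_mul]
  have h1 : ∫ ω in (θ - ρ)..(θ + ρ), c₁ * ‖deriv G (exp (-(σ : ℂ) + ω * I))‖ ≤
      ∫ ω in (θ - ρ)..(θ + ρ), ‖deriv F (exp (-(σ : ℂ) + ω * I))‖ := by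
    refine intervalIntegral.integral_mono_on (by linarith)
      ((cont_deriv hG hσ).const_mul c₁ |>.intervalIntegrable _ _)
      ((cont_deriv hF hσ).intervalIntegrable _ _) ?_
    intro ω _
    exact h _ (exp_mem hσ ω)
  refine h1.trans ?_
  refine intervalIntegral.integral_mono_interval (by linarith) (by linarith) (by linarith)
    (Eventually.of_forall fun ω => norm_nonneg _) ((cont_deriv hF hσ).intervalIntegrable _ _)

theorem numeric {N ε a b s g v₀ c : ℝ} (hN : 1 ≤ N) (hs0 : 0 ≤ s) (hs1 : s ≤ 1) (hε : 0 < ε)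
    (hb : b = g - ε / 8) (hv : v₀ ≤ a + g * (1 - s)) (hc : 0 < c)
    (hcN : c⁻¹ ≤ N ^ (5 * ε / 8)) :
    N ^ (v₀ - ε) ≤ c * (N ^ (-(ε / 4)) * N ^ a * N ^ (b * (1 - s))) := by
  have hN0 : 0 < N := by linarith
  rw [← Real.rpow_add hN0, ← Real.rpow_add hN0]
  have h1 : v₀ - 3 * ε / 8 ≤ -(ε / 4) + a + b * (1 - s) := by
    rw [hb]
    nlinarith
  have h2 : N ^ (v₀ - 3 * ε / 8) ≤ N ^ (-(ε / 4) + a + b * (1 - s)) :=
    Real.rpow_le_rpow_of_exponent_le hN h1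
  have h3 : N ^ (v₀ - ε) ≤ c * N ^ (v₀ - 3 * ε / 8) := by
    have h4 : N ^ (v₀ - 3 * ε / 8) = N ^ (v₀ - ε) * N ^ (5 * ε / 8) := by
      rw [← Real.rpow_add hN0]
      congr 1
      ring
    rw [h4]
    have h5 : 0 < N ^ (v₀ - ε) := Real.rpow_pos_of_pos hN0 _
    have h6 : 1 ≤ c * N ^ (5 * ε / 8) := by
      have := mul_le_mul_of_nonneg_left hcN hc.le
      rwa [mul_inv_cancel₀ hc.ne'] at this
    nlinarith
  exact h3.trans (mul_le_mul_of_nonneg_left h2 hc.le)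

theorem hMas (hNum : StNum) (hTf : StTf) (hTw1 : StTw1) (hClt : StClt) (hAtt : StAtt)
    (hHK : StHK) (hZon : StZon) (hFdf : StFdf) : StMas := by
  intro m j g hm hj hjm hg0 hg1 hg2 hg3 hS ε hε f R hR hU hf0 η r hη hr0 hr1
  obtain ⟨nr, α, p, act, hprof, hl⟩ := hNum m j g hm hj hjm hg0 hg1 hg2 hg3
  obtain ⟨C, hC, hTF⟩ := hTf
  have hC1 : 1 ≤ C := by linarith
  have hC0 : 0 < C := by linarith
  obtain ⟨Q₁, hQ₁, hzon⟩ := hZon C hC1
  obtain ⟨Q₂, hQ₂⟩ := exists_nat_ge (Real.exp (16 * Real.log C / ε))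
  obtain ⟨Q, κ, Φ, hQ, hTM⟩ := hTF (g - ε / 8) (hS _ (by linarith)) (max Q₁ Q₂)
  have hQQ1 : Q₁ ≤ Q := (le_max_left _ _).trans hQ
  have hQ2 : 2 ≤ Q := hQ₁.trans hQQ1
  have hQr : (2 : ℝ) ≤ Q := by exact_mod_cast hQ2
  have hQ0 : (0 : ℝ) < Q := by linarith
  have hlogQ : 16 * Real.log C ≤ ε * Real.log Q := by
    have h1 : Real.exp (16 * Real.log C / ε) ≤ Q :=
      hQ₂.trans (by exact_mod_cast (le_max_right Q₁ Q₂).trans hQ)
    have h2 : 16 * Real.log C / ε ≤ Real.log Q := by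
      rw [← Real.log_exp (16 * Real.log C / ε)]
      exact Real.log_le_log (Real.exp_pos _) h1
    rw [div_le_iff₀ hε] at h2
    linarith
  obtain ⟨M₀, hM₀, hfdf⟩ := hFdf f R hR hU hf0 η r C hη hr0 hr1 hC1
  obtain ⟨M, h, θ, ξ, c, C₀, hMM, hatt, hclose⟩ :=
    hAtt m f R hR hU hf0 (η / 2) r (by linarith) hr0 hr1 M₀
  obtain ⟨c₁, hc₁, hF⟩ := hfdf m M h θ ξ c C₀ hMM hatt hclose
  obtain ⟨hM1, hBU, hdh, hc, hC₀, hθi, hξi, hξn, hθM, hnear, hschw⟩ := hatt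
  obtain ⟨cK, hcK, hK⟩ := hHK m ξ hξi hξn nr α p act hprof
  have hatm : ∀ l, Atm M h (θ l) (ξ l) c C₀ := fun l =>
    ⟨hM1, hBU, hθM l, hξn l, hc, hC₀, hnear l, hschw⟩
  have hz := fun l => hzon κ (g - ε / 8) Q Φ hQQ1 hTM M h (θ l) (ξ l) c C₀ (ss nr α p act l)
    (hatm l) (hl l).1 (hl l).2.1
  choose cz kz hcz hkz using hz
  obtain ⟨l₀, hl₀⟩ := Finite.exists_min (fun l => ss nr α p act l)
  obtain ⟨l₁, hl₁⟩ := Finite.exists_min cz
  obtain ⟨l₂, hl₂⟩ := Finite.exists_max kz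
  have hM1r : (1 : ℝ) ≤ M := by exact_mod_cast hM1
  have h2CM : 2 * C ≤ M := hM₀.trans (by exact_mod_cast hMM)
  refine ⟨M, θ, ss nr α p act l₀ / 2, hM1, by have := (hl l₀).1; linarith, hθi, ?_⟩
  intro N₀
  have hcc : 0 < c₁ * cz l₁ * cK := by
    have := hcz l₁
    positivity
  -- large `k`
  have htop : Tendsto (fun k : ℕ => (Q : ℝ) ^ k) atTop atTop :=
    tendsto_pow_atTop_atTop_of_one_lt (by linarith)
  have htop2 : Tendsto (fun k : ℕ => ((Q : ℝ) ^ k) ^ (5 * ε / 8)) atTop atTop :=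
    (tendsto_rpow_atTop (by linarith : 0 < 5 * ε / 8)).comp htop
  obtain ⟨k, hk1, hk2, hk3⟩ := ((htop.eventually_ge_atTop N₀).and
    ((htop2.eventually_ge_atTop (c₁ * cz l₁ * cK)⁻¹).and (eventually_ge_atTop (kz l₂)))).exists
  set N : ℝ := (Q : ℝ) ^ k with hN
  have hN1 : 1 ≤ N := one_le_pow₀ (by linarith)
  have hN0 : 0 < N := by linarith
  obtain ⟨K, hKU, hK0, hKd, hKl⟩ := hK N hN1
  obtain ⟨hLC2, -⟩ := hTw1 C Q Φ hC0.le hQ2 hTM.1 k
  obtain ⟨φ, hφ1, hφ2, hφ3, hφ4, hφ5⟩ := hClt (2 * C) (TW Φ Q k) M hM1 (by linarith) h2CM hLC2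
  obtain ⟨F, hF1, hF2, hF3, hF4, hF5⟩ := hF K φ hKU hKd hφ1 hφ2 hφ3 (by
    intro r' h1 h2 h3 z hz
    have := hφ5 r' h1 h2 h3 z hz
    have e : 2 * (2 * C) / (M : ℝ) = 4 * C / M := by ring
    rwa [e] at this)
  refine ⟨N, F, hk1, hN1, hF1, hF2, hF3, hF4, ?_⟩
  intro l
  have hDsc : Dsc Φ Q k M φ := ⟨hφ1, hφ2, hφ3, hφ4⟩
  have hzone := hkz l k ((hl₂ l).trans hk3) K φ hKU hDsc
  rw [← hN] at hzone
  have hσ : 0 < N⁻¹ / (M : ℝ) := by positivity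
  -- differentiability of the composition
  have hG : DifferentiableOn ℂ (fun z => K (h (φ z))) (ball 0 1) := by
    have hφm : MapsTo φ (ball 0 1) (ball 0 1) := by
      intro z hz
      have := hφ3 z hz
      rw [mem_ball_zero_iff] at hz ⊢
      linarith
    have hhm : MapsTo h (ball 0 1) (ball 0 1) := by
      intro z hz
      have h1 := hschw z hz
      rw [mem_ball_zero_iff] at hz ⊢
      have : 0 < c * (1 - ‖z‖) := mul_pos hc (by linarith)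
      linarith
    exact hKU.1.comp (hBU.1.1.comp hφ1.1.1 hφm) (hhm.comp hφm)
  have hmass := mass_le hF1.1 hG (σ := N⁻¹ / (M : ℝ)) (c₁ := c₁) (θ := θ l)
    (ρ := N ^ (-(ss nr α p act l / 2))) (ρ' := N ^ (-(ss nr α p act l₀ / 2))) hσ
    (Real.rpow_nonneg hN0.le _) (Real.rpow_le_rpow_of_exponent_le hN1 (by
      have := hl₀ l
      linarith)) hF5
  refine le_trans ?_ hmass
  refine le_trans ?_ (mul_le_mul_of_nonneg_left hzone hc₁.le)
  -- exponents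
  have hCk : N ^ (-(ε / 4)) ≤ ((C ^ k) ^ 4)⁻¹ := by
    rw [Real.rpow_neg hN0.le]
    apply inv_anti₀ (by positivity)
    have e1 : (C ^ k) ^ 4 = Real.exp (k * (4 * Real.log C)) := by
      rw [← pow_mul, ← Real.exp_log hC0, ← Real.exp_nat_mul]
      congr 1
      rw [Real.log_exp]
      push_cast
      ring
    have e2 : N ^ (ε / 4) = Real.exp (k * (Real.log Q * (ε / 4))) := by
      rw [Real.rpow_def_of_pos hN0, hN, Real.log_pow]
      congr 1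
      ring
    rw [e1, e2]
    apply Real.exp_le_exp.2
    apply mul_le_mul_of_nonneg_left _ (Nat.cast_nonneg k)
    linarith
  have hnum := numeric (N := N) (ε := ε) (a := AA nr α act l) (b := g - ε / 8)
    (s := ss nr α p act l) (g := g) (v₀ := g + (2 / j - g) * qr g ^ (m + 1 - j))
    (c := c₁ * cz l₁ * cK) hN1 (hl l).1.le (hl l).2.1 hε rfl (hl l).2.2 hcc hk2
  refine hnum.trans ?_
  have hA : 0 ≤ N ^ AA nr α act l := Real.rpow_nonneg hN0.le _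
  have hB : 0 ≤ N ^ ((g - ε / 8) * (1 - ss nr α p act l)) := Real.rpow_nonneg hN0.le _
  have hE : 0 ≤ N ^ (-(ε / 4)) := Real.rpow_nonneg hN0.le _
  have hX := hKl l
  have hcz1 : cz l₁ ≤ cz l := hl₁ l
  have hczp := hcz l₁
  calc c₁ * cz l₁ * cK * (N ^ (-(ε / 4)) * N ^ AA nr α act l *
          N ^ ((g - ε / 8) * (1 - ss nr α p act l)))
      = c₁ * (cz l₁ * N ^ (-(ε / 4)) * (cK * N ^ AA nr α act l) *
          N ^ ((g - ε / 8) * (1 - ss nr α p act l))) := by ring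
    _ ≤ c₁ * (cz l * ((C ^ k) ^ 4)⁻¹ *
        (‖deriv K (((1 - N ^ (-(ss nr α p act l)) : ℝ) : ℂ) * ξ l)‖ * N ^ (-(ss nr α p act l))) *
        N ^ ((g - ε / 8) * (1 - ss nr α p act l))) := by
      apply mul_le_mul_of_nonneg_left _ hc₁.le
      apply mul_le_mul_of_nonneg_right _ hB
      apply mul_le_mul _ hX (by positivity) (by have := hcz l; positivity)
      exact mul_le_mul hcz1 hCk hE (hczp.le.trans hcz1)

end Pool.Agent.Helper5.SRM
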