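import Pool.Agent.Helper5.SR.St4

/-!
Modules NAD and QWR of project SR (MP_d6acc2_an).
-/

set_option autoImplicit false

namespace Pool.Agent.Helper5.SRL

open Complex MeasureTheory Set Metric Filter Topology
open scoped Real
open Pool.Agent.Helper60.Rel (LH tc Admissible ClassS)
open Helper5.SR Pool.Agent.Helper51.LT

theorem hNad : StNad := by
  intro m α F hm hF hQ hA
  obtain ⟨K, hK⟩ := hA F hF m hm
  obtain ⟨j, hj⟩ := exists_nat_ge |K|
  obtain ⟨n, hjn, hn, hc⟩ := hQ j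
  obtain ⟨c, hc0, -, hcs⟩ := hK n hn
  obtain ⟨k₀, hk₀⟩ := Finite.exists_max (fun k : Fin (m + 1) => ‖c k‖)
  have hμ : 1 ≤ ‖c k₀‖ := by
    have := hk₀ 0
    simpa [hc0] using this
  have hμ0 : (0 : ℝ) < ‖c k₀‖ := by linarith
  obtain ⟨i, hi, hlt⟩ := hc (fun k => c k / ‖c k₀‖) (by
    intro k
    rw [norm_div, norm_real, norm_norm, div_le_one hμ0]
    exact hk₀ k) ⟨k₀, by
      rw [norm_div, norm_real, norm_norm, div_self hμ0.ne']⟩
  have e1 : ∑ k : Fin (m + 1), c k / (‖c k₀‖ : ℂ) * tc F (n + i + k) =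
      (∑ k ∈ Finset.range (m + 1), c k * tc F (n + i + k)) / (‖c k₀‖ : ℂ) := by
    rw [Finset.sum_div, Finset.sum_range]
    refine Finset.sum_congr rfl fun k _ => ?_
    ring
  rw [e1, norm_div, norm_real, norm_norm] at hlt
  have h2 := hcs i hi
  have hn0 : (0 : ℝ) ≤ (n : ℝ) ^ α := by positivity
  have h3 : K * (n : ℝ) ^ α ≤ |K| * (n : ℝ) ^ α := mul_le_mul_of_nonneg_right (le_abs_self K) hn0
  have h4 : |K| * (n : ℝ) ^ α ≤ j * (n : ℝ) ^ α := mul_le_mul_of_nonneg_right hj hn0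
  rw [lt_div_iff₀ hμ0] at hlt
  have h5 : (j : ℝ) * (n : ℝ) ^ α ≤ (j : ℝ) * (n : ℝ) ^ α * ‖c k₀‖ :=
    le_mul_of_one_le_right (by positivity) hμ
  linarith

theorem tc_diff (hTcf : StTcf) {F G : ℂ → ℂ} (hF : DifferentiableOn ℂ F (ball 0 1))
    (hG : DifferentiableOn ℂ G (ball 0 1)) {η : ℝ}
    (h : ∀ z : ℂ, ‖z‖ ≤ 1 / 2 → ‖F z - G z‖ ≤ η) (T : ℕ) : ‖tc F T - tc G T‖ ≤ 2 ^ T * η := by
  have hr : (0 : ℝ) < 1 / 2 := by norm_num
  have hsub : closedBall (0 : ℂ) (1 / 2) ⊆ ball 0 1 := closedBall_subset_ball (by norm_num)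
  rw [hTcf F (1 / 2) T hr (hF.mono hsub) ⟨1, by norm_num, hF⟩,
    hTcf G (1 / 2) T hr (hG.mono hsub) ⟨1, by norm_num, hG⟩, ← mul_sub]
  have hmem : ∀ t : ℝ, circleMap 0 (1 / 2) t ∈ closedBall (0 : ℂ) (1 / 2) := fun t =>
    circleMap_mem_closedBall _ hr.le t
  have hne : ∀ t : ℝ, circleMap 0 (1 / 2) t ≠ 0 := by
    intro t
    simp
  have hcont : ∀ H : ℂ → ℂ, DifferentiableOn ℂ H (ball 0 1) →
      Continuous (fun t : ℝ => H (circleMap 0 (1 / 2) t) * (circleMap 0 (1 / 2) t ^ T)⁻¹) := by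
    intro H hH
    refine Continuous.mul ?_ ?_
    · exact (hH.continuousOn.mono hsub).comp_continuous (continuous_circleMap 0 (1 / 2)) hmem
    · exact ((continuous_circleMap 0 (1 / 2)).pow T).inv₀ (fun t => pow_ne_zero _ (hne t))
  rw [← intervalIntegral.integral_sub ((hcont F hF).intervalIntegrable _ _)
    ((hcont G hG).intervalIntegrable _ _), norm_mul]
  have hb : ‖∫ t in (0 : ℝ)..(2 * π), (F (circleMap 0 (1 / 2) t) * (circleMap 0 (1 / 2) t ^ T)⁻¹ -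
      G (circleMap 0 (1 / 2) t) * (circleMap 0 (1 / 2) t ^ T)⁻¹)‖ ≤ (2 ^ T * η) * |2 * π - 0| := by
    apply intervalIntegral.norm_integral_le_of_norm_le_const
    intro t _
    rw [← sub_mul, norm_mul, norm_inv, norm_pow]
    have h1 : ‖circleMap 0 (1 / 2) t‖ = 1 / 2 := by simp
    rw [h1]
    have h2 := h (circleMap 0 (1 / 2) t) h1.le
    have h3 : (((1 : ℝ) / 2) ^ T)⁻¹ = 2 ^ T := by
      rw [one_div, inv_pow, inv_inv]
    rw [h3, mul_comm]
    exact mul_le_mul_of_nonneg_left h2 (by positivity)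
  have hpi : (0 : ℝ) < 2 * π := by positivity
  have h4 : ‖(((2 * π)⁻¹ : ℝ) : ℂ)‖ = (2 * π)⁻¹ := by
    rw [norm_real, Real.norm_of_nonneg (by positivity)]
  rw [h4]
  rw [sub_zero, abs_of_pos hpi] at hb
  calc (2 * π)⁻¹ * _ ≤ (2 * π)⁻¹ * (2 ^ T * η * (2 * π)) :=
        mul_le_mul_of_nonneg_left hb (by positivity)
    _ = 2 ^ T * η := by field_simp

theorem hQwr (hTcf : StTcf) : StQwr := by
  intro m α j n F hF hjn hn hc
  have hn0 : (0 : ℝ) < (n : ℝ) ^ α := by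
    have : (0 : ℝ) < n := by exact_mod_cast hn
    positivity
  refine ⟨(n : ℝ) ^ α / (2 * (m + 1) * 2 ^ (n + 2 * m)), by positivity, 1 / 2, by norm_num,
    by norm_num, ?_⟩
  intro G hG hclose
  refine ⟨n, hjn, hn, ?_⟩
  intro c h1 h2
  obtain ⟨i, hi, hle⟩ := hc c h1 h2
  refine ⟨i, hi, ?_⟩
  have hd : ‖∑ k : Fin (m + 1), c k * tc G (n + i + k) - ∑ k : Fin (m + 1), c k * tc F (n + i + k)‖
      ≤ (n : ℝ) ^ α / 2 := by
    rw [← Finset.sum_sub_distrib]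
    refine (norm_sum_le _ _).trans ?_
    have hb : ∀ k ∈ (Finset.univ : Finset (Fin (m + 1))),
        ‖c k * tc G (n + i + k) - c k * tc F (n + i + k)‖ ≤ (n : ℝ) ^ α / (2 * (m + 1)) := by
      intro k _
      rw [← mul_sub, norm_mul]
      have h3 := tc_diff hTcf hG hF hclose (n + i + k)
      have h4 : (2 : ℝ) ^ (n + i + (k : ℕ)) ≤ 2 ^ (n + 2 * m) := by
        apply pow_le_pow_right₀ (by norm_num)
        have := k.2
        omega
      calc ‖c k‖ * ‖tc G (n + i + k) - tc F (n + i + k)‖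
          ≤ 1 * ‖tc G (n + i + k) - tc F (n + i + k)‖ :=
            mul_le_mul_of_nonneg_right (h1 k) (norm_nonneg _)
        _ ≤ 2 ^ (n + i + (k : ℕ)) * ((n : ℝ) ^ α / (2 * (m + 1) * 2 ^ (n + 2 * m))) := by
            rw [one_mul]; exact h3
        _ ≤ 2 ^ (n + 2 * m) * ((n : ℝ) ^ α / (2 * (m + 1) * 2 ^ (n + 2 * m))) :=
            mul_le_mul_of_nonneg_right h4 (by positivity)
        _ = (n : ℝ) ^ α / (2 * (m + 1)) := by field_simp
    refine (Finset.sum_le_sum hb).trans ?_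
    rw [Finset.sum_const, Finset.card_univ, Fintype.card_fin, nsmul_eq_mul]
    apply le_of_eq
    push_cast
    field_simp
  have h5 : ‖∑ k : Fin (m + 1), c k * tc F (n + i + k)‖ ≤
      ‖∑ k : Fin (m + 1), c k * tc G (n + i + k)‖ + ‖∑ k : Fin (m + 1), c k * tc G (n + i + k) -
        ∑ k : Fin (m + 1), c k * tc F (n + i + k)‖ := by
    have := norm_sub_le (∑ k : Fin (m + 1), c k * tc G (n + i + k))
      (∑ k : Fin (m + 1), c k * tc G (n + i + k) - ∑ k : Fin (m + 1), c k * tc F (n + i + k))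
    simpa using this
  nlinarith

end Pool.Agent.Helper5.SRL
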