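import Pool.Agent.Helper51.LT.All
import Pool.Agent.Helper4.SR.M_MAT
import Pool.Agent.Helper2.SR.M_HAN
import Pool.Agent.Helper2.SR.M_NUM
import Pool.Agent.Helper29.SR.M_KK1
import Pool.Agent.Helper80.SR.M_KK2
import Pool.Agent.Helper47.SR.M_KK3
import Pool.Agent.Helper19.SR.M_STG
import Pool.Agent.Helper29.SR.M_HYP
import Pool.Agent.Helper51.SR.M_HK
import Pool.Agent.Helper31.SR.M_SUP
import Pool.Agent.Helper82.SR.M_ZF
import Pool.Agent.Helper75.SR.M_XXI
import Pool.Agent.Helper61.SR.M_TA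
import Pool.Agent.Helper47.SR.M_TL
import Pool.Agent.Helper24.SR.M_TG
import Pool.Agent.Helper75.SR.M_TF
import Pool.Agent.Helper31.SR.M_TW1
import Pool.Agent.Helper31.SR.M_TW2
import Pool.Agent.Helper19.SR.M_DIS
import Pool.Agent.Helper77.SR.M_TW4
import Pool.Agent.Helper38.SR2.M_TW3
import Pool.Agent.Helper82.SR.M_CUT
import Pool.Agent.Helper61.SR.M_FOU
import Pool.Agent.Helper96.SR.M_STR
import Pool.Agent.Helper42.SR.M_SSF
import Pool.Agent.Helper42.SR.M_HBU
import Pool.Agent.Helper72.SR.M_ATB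
import Pool.Agent.Helper75.SR.M_ATC
import Pool.Agent.Helper41.SR.M_ATT
import Pool.Agent.Helper5.SR.M_LD
import Pool.Agent.Helper5.SR.M_CLT
import Pool.Agent.Helper47.SR.M_FDF
import Pool.Agent.Helper5.SR.M_MAS
import Pool.Agent.Helper51.SR.M_LOX
import Pool.Agent.Helper42.SR.M_COE
import Pool.Agent.Helper51.SR.M_WIN
import Pool.Agent.Helper5.SR.M_NAD
import Pool.Agent.Helper5.SR.M_LOW
import Pool.Agent.Helper14.SR.M_ZPT
import Pool.Agent.Helper42.SR.M_ZON
import Pool.Agent.Helper77.SR.M_PER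

/-!
# Project SR: assembly of the lower half
-/

set_option autoImplicit false

namespace Pool.Agent.Helper5.SRA

open Helper5.SR Pool.Agent.Helper51.LT

theorem zHan : StHan := Pool.Agent.Helper2.SR.hHan Pool.Agent.Helper4.SR.hMat
theorem zKK1 : StKK1 := Pool.Agent.Helper29.SR.hKK1
theorem zHyp : StHyp := Pool.Agent.Helper29.SR.hHyp zD3
theorem zStg : StStg := Pool.Agent.Helper19.SR.hStg (Pool.Agent.Helper80.SR.hKK2 zKK1)
  (Pool.Agent.Helper47.SR.hKK3 zKK1 zD3) Pool.Agent.Helper5.SRD.hLD zD3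
theorem zHK : StHK := Pool.Agent.Helper51.SR.hHK zStg zHyp
theorem zSup : StSup := Pool.Agent.Helper31.SR.hSup zHump
theorem zXXI : StXXI := Pool.Agent.Helper75.SR.hXXI
theorem zTa : StTa := Pool.Agent.Helper61.SR.hTa zKoe zD2 Pool.Agent.Helper82.SR.hZf zXXI
theorem zTf : StTf := Pool.Agent.Helper75.SR.hTf zTa Pool.Agent.Helper47.SR.TL.hTl
  (Pool.Agent.Helper24.SR.hTg zXXI zHyp)
theorem zTw1 : StTw1 := Pool.Agent.Helper31.SR.hTw1
theorem zTw4 : StTw4 := Pool.Agent.Helper77.SR.hTw4 zTw1 (Pool.Agent.Helper31.SR.hTw2 zTw1)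
  Pool.Agent.Helper19.SR.hDis
theorem zTw3 : StTw3 := Pool.Agent.Helper38.SR2.hTw3 zTw1
theorem zStr : StStr := Pool.Agent.Helper96.SR.hStr zKoe Pool.Agent.Helper82.SR.hCut
  Pool.Agent.Helper61.SR.Fou.hFou
theorem zSsf : StSsf := Pool.Agent.Helper42.SR.hSsf
theorem zAtt : StAtt := Pool.Agent.Helper41.SR.hAtt zStr (Pool.Agent.Helper42.SR.hHbu zSsf)
  (Pool.Agent.Helper72.SR.hAtb zSsf) (Pool.Agent.Helper75.SR.hAtc Pool.Agent.Helper68.LT.hD1 zD3 zSsf)
theorem zClt : StClt := Pool.Agent.Helper5.SRC.hClt Pool.Agent.Helper5.SRD.hLD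
theorem zFdf : StFdf := Pool.Agent.Helper47.SR.FDF.hFdf zD2
theorem zWin : StWin := Pool.Agent.Helper51.SR.hWin zHan Pool.Agent.Helper51.SR.hLox
  (Pool.Agent.Helper42.SR.hCoe zTcf hTcd) (Pool.Agent.Helper62.LT.hPol zD2) zCJU
theorem zQwr : StQwr := Pool.Agent.Helper5.SRL.hQwr zTcf

theorem zZon : StZon := Pool.Agent.Helper42.SR.hZon
  (Pool.Agent.Helper14.SR.hZpt zTw1 zTw3 zHyp zD2) zTw1 zTw4
theorem zMas : StMas := Pool.Agent.Helper5.SRM.hMas Pool.Agent.Helper2.SR.hNum zTf zTw1 zClt zAtt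
  zHK zZon zFdf

/-- the lower half, modulo the last module -/
theorem low_of (hPer : StPer) : StLow :=
  Pool.Agent.Helper5.SRL.hLow zNn zSup zMas hPer Pool.Agent.Helper5.SRL.hNad zGH zInj hTcd

/-- the form used in the final assembly -/
theorem lowX_of (hPer : StPer) : StLowX := fun m j hm hj hjm h1 h2 α hα =>
  low_of hPer m j hm hj hjm zBb_nonneg zBb_le_half h1 h2 α hα

theorem zPer : StPer := Pool.Agent.Helper77.SR.hPer zWin zQwr hTcd zD2

/-- the lower half -/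
theorem zLow : StLow := low_of zPer

/-- the lower half, in the form used in the final assembly -/
theorem lowX : StLowX := lowX_of zPer

end Pool.Agent.Helper5.SRA
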