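import Pool.Agent.Helper51.LT.St2

/-!
# Project SR (MP_d6acc2_an, stage 2, lower half), part 1: algebra, numerics, star-like stages

Goal of the whole project: `-1 + B + (2/j - B) q^(m+1-j) ≤ alpha_m*`, `B = B_b(1)`,
`q = ((2-B)/(2+B))²`, `j` the largest integer with `1 ≤ j ≤ m+1`, `(2j-1)B ≤ 2`.

All statements with complete paper proofs in the docstrings; definitions `Un, BU, IM, HU, Rob` and the
propositions `StKoe, StD1, …` are those of `Pool.Agent.Helper51.LT.St`.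
-/

set_option autoImplicit false

namespace Helper5.SR

open Complex MeasureTheory Set Metric Filter Topology
open scoped Real
open Pool.Agent.Helper60.Rel (LH tc Admissible ClassS)
open Pool.Agent.Helper51.LT

/-! ## Symmetric matrices and Hankel windows -/

/-- MAT (about 120 lines).  For a complex SYMMETRIC matrix `A` (not hermitian) and `t > 0` some `0/1` diagonal
matrix `D_I` makes `‖(A + t D_I) x‖ ≥ c t ‖x‖` (sup norms, `c` depends on the size only).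
Proof.  Put `B_I = A + t D_I`; by symmetry `∑ (B_I x)_i y_i = ∑ x_i (B_I y)_i`, and for `l ∉ I`
`∑ (B_{I ∪ l} x)_i y_i = ∑ (B_I x)_i y_i + t x_l y_l`.  Fix `δ_0 = 1/(4 N)^{...}` decreasing fast; say that `I`
is good with constant `δ` if every `x` with `‖B_I x‖ ≤ δ t ‖x‖` satisfies `|x_i| ≤ ‖x‖/2` for all `i ∈ I`.
Claim: if `I` is good with constant `δ ≤ 1/2` then either `‖B_I x‖ > (δ/(8N)) t ‖x‖` for all `x ≠ 0`, or there is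
`l ∉ I` such that `I ∪ l` is good with the constant `δ' = δ/(8N)`.  Indeed let `x ≠ 0`,
`‖B_I x‖ ≤ δ' t ‖x‖`, `‖x‖ = 1`, and `|x_l| = 1`; `l ∉ I` because `I` is good.  Let `y`, `‖y‖ = 1`, with
`‖B_{I ∪ l} y‖ ≤ δ' t`.  Then `t |y_l| = t |x_l y_l| ≤ |∑ (B_{I∪l} y)_i x_i| + |∑ (B_I x)_i y_i| ≤ 2 N δ' t`, so
`|y_l| ≤ 2Nδ' = δ/4 ≤ 1/2`, and `B_I y = B_{I∪l} y - t y_l e_l` has norm `≤ δ' t + t δ/4 ≤ δ t`, so (`I` good with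
constant `δ`) `|y_i| ≤ 1/2` for `i ∈ I` too.  Start with `I = ∅` (good with constant `1/2`); after at most
`N` steps the second alternative is impossible (if `I = univ` is good with constant `δ` then every `x ≠ 0`
has `‖B_I x‖ > δ t ‖x‖`, since `|x_i| ≤ ‖x‖/2` for all `i` is impossible).  For `N = 0` trivial.
Hypotheses: none. -/
def StMat : Prop := ∀ N : ℕ, ∃ c : ℝ, 0 < c ∧ ∀ A : Fin N → Fin N → ℂ, (∀ i j, A i j = A j i) →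
  ∀ t : ℝ, 0 < t → ∃ I : Finset (Fin N), ∀ x : Fin N → ℂ, (∀ k, ‖x k‖ ≤ 1) → (∃ k, ‖x k‖ = 1) →
    ∃ i, c * t ≤ ‖(∑ j, A i j * x j) + (if i ∈ I then (t : ℂ) * x i else 0)‖

/-- HAN (about 180 lines).  `ζ_l` distinct, `V_{l i} = ζ_l ^ i` (`(m+1) × (m+1)`, invertible: Vandermonde,
`Matrix.det_vandermonde_ne_zero_iff`).  `H_{i k} = a (i+k)` is symmetric.  With `W = V⁻¹`:
`A = Wᵀ H W` is symmetric and `H + t ∑_{l∈I} (ζ_l^{i+k}) = Vᵀ (A + t D_I) V`.  Choose `I` from MAT for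
`A`.  For `c` with sup norm one: `‖Vc‖ ≥ κ₁ > 0` and `‖Vᵀ y‖ ≥ κ₁ ‖y‖` (`κ₁` depends on `ζ` only: finite
dimension, `V` invertible), so `‖(H + t ∑ …) c‖ ≥ κ₁² c_N t`.  The error terms `v l (i+k) - t ζ_l^(i+k)`
contribute at most `(m+1)(m+1) ε₀ t` to each component; choose `ε₀` with `(m+1)² ε₀ ≤ κ₁² c_N/2` and
`c₀ = κ₁² c_N/2`.  Hypotheses: hMat. -/
def StHan : Prop := ∀ (m : ℕ) (ζ : Fin (m + 1) → ℂ), Function.Injective ζ → (∀ l, ‖ζ l‖ = 1) →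
  ∃ c₀ ε₀ : ℝ, 0 < c₀ ∧ 0 < ε₀ ∧ ∀ (a : ℕ → ℂ) (v : Fin (m + 1) → ℕ → ℂ) (t : ℝ), 0 < t →
    (∀ l, ∀ i ≤ 2 * m, ‖v l i - t * ζ l ^ i‖ ≤ ε₀ * t) →
    ∃ I : Finset (Fin (m + 1)), ∀ c : Fin (m + 1) → ℂ, (∀ k, ‖c k‖ ≤ 1) → (∃ k, ‖c k‖ = 1) →
      ∃ i ≤ m, c₀ * t ≤ ‖∑ k, c k * (a (i + k) + ∑ l ∈ I, v l (i + k))‖

/-! ## Profile -/

/-- total height of the finger `l` (in units of `log N`) -/
noncomputable def AA {m : ℕ} (r : ℕ) (α : ℕ → ℝ) (act : ℕ → Finset (Fin (m + 1)))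
    (l : Fin (m + 1)) : ℝ := ∑ b ∈ Finset.range r, if l ∈ act b then α b else 0

/-- scale at which the finger `l` ends (in units of `log N`) -/
noncomputable def ss {m : ℕ} (r : ℕ) (α : ℕ → ℝ) (p : ℕ → Fin (m + 1) → ℝ)
    (act : ℕ → Finset (Fin (m + 1))) (l : Fin (m + 1)) : ℝ :=
  ∑ b ∈ Finset.range r, if l ∈ act b then α b / p b l else 0

/-- a profile with `r` stages: at stage `b` the fingers in `act b` are active with exponents `p b l` of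
sum `2` -/
def Prof {m : ℕ} (r : ℕ) (α : ℕ → ℝ) (p : ℕ → Fin (m + 1) → ℝ)
    (act : ℕ → Finset (Fin (m + 1))) : Prop :=
  (∀ b, 0 ≤ α b) ∧ (∀ b, ∀ l ∈ act b, 0 < p b l) ∧
  (∀ b < r, ∑ l ∈ act b, p b l = 2) ∧ (∀ b, act (b + 1) ⊆ act b)

/-- NUM (about 200 lines).  Real arithmetic.  Case `j = m+1`: `r = 1`, `act 0 = univ`, `p = 2/(m+1)`,
`α 0 = 2/(m+1)`, so `AA = 2/(m+1)`, `ss = 1`.  Case `j ≤ m` (then `2 ≤ (2j+1)g`, `g > 0`): `ρ = (2+g)/(2-g) > 1`,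
`n₀ = m+1-j ≥ 1`, `r = n₀+1`; `T b = j ρ^(n₀-b)` for `b ≤ n₀` (so `T n₀ = j`), `γ l = T l - T (l+1) =
T l (1 - 1/ρ)` for `l < n₀`, `γ l = 1` for `n₀ ≤ l ≤ m`; `act b = {l : b ≤ l}` for `b ≤ n₀` and `act b = ∅`
for `b > n₀`; `p b l = 2 γ l / T b` (sum over `b ≤ l ≤ m` is `2`, because `∑_{l ≥ b} γ l = T b`).
With `E = (2/j - g) ρ^(-2 n₀)` (`= (2/j-g) qr g ^ n₀`) put `α 0 = 4E/(2-g)`,
`α b = (ρ-1) α 0 ρ^(2b-1)` for `1 ≤ b < n₀`, and `α n₀ = (2 - S)/j` with `S = 4(2-gj)/(2+g)`; `S ≤ 2` is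
equivalent to `2 ≤ (2j+1)g`.  Sums: `∑_{b ≤ l} α b T b = α 0 T 0 ρ^l` for `l < n₀` (induction), so
`ss l = α 0 ρ^(2l) (2+g)/(4g)` for `l < n₀`, increasing in `l`, and
`ss (n₀-1) = (2/j-g)(2-g)/((2+g)g) ≤ 1` (equivalent to `2 ≤ (2j+1)g`); `∑_{b ≤ l} α b = E + g ss l` for
`l < n₀` (induction), i.e. `AA l + g (1 - ss l) = g + E`.  For `l ≥ n₀`: `∑_{b ≤ n₀} α b T b = S + (2-S) = 2`
(`α 0 T 0 ρ^(n₀-1) = S`), so `ss l = 1`, and `AA l = ∑_{b ≤ n₀} α b = g + E` (identity: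
`(2-gj)(2-g) + 2g - 4 + 4gj = gj(2+g)`).  `E > 0` as `g ≤ 1/2 < 2/j` or (for `j ≥ 4`) `(2j-1)g ≤ 2` gives
`g < 2/j`; so `ss l > 0`.  Hypotheses: none. -/
def StNum : Prop := ∀ (m j : ℕ) (g : ℝ), 1 ≤ m → 1 ≤ j → j ≤ m + 1 → 0 ≤ g → g ≤ 1 / 2 →
  (2 * (j : ℝ) - 1) * g ≤ 2 → (j = m + 1 ∨ 2 ≤ (2 * (j : ℝ) + 1) * g) →
  ∃ (r : ℕ) (α : ℕ → ℝ) (p : ℕ → Fin (m + 1) → ℝ) (act : ℕ → Finset (Fin (m + 1))),
    Prof r α p act ∧ ∀ l, 0 < ss r α p act l ∧ ss r α p act l ≤ 1 ∧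
      g + (2 / j - g) * qr g ^ (m + 1 - j) ≤ AA r α act l + g * (1 - ss r α p act l)

/-! ## Star-like stages -/

/-- the logarithm of `w ↦ w ∏ (1 - w e^{-iθ_l})^(-p_l)` in the coordinate `ζ = log w ∈ LH` -/
noncomputable def kk {ι : Type} (Λ : Finset ι) (θ p : ι → ℝ) (ζ : ℂ) : ℂ :=
  ζ - ∑ l ∈ Λ, (p l : ℂ) * Complex.log (1 - exp (ζ - θ l * I))

/-- KK1 (about 120 lines).  `‖exp (ζ - iθ)‖ < 1` on `LH`, so `1 - exp(…)` is in the slit plane, and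
`kk' = 1 + ∑ p_l u_l/(1-u_l)`, `u_l = exp(ζ - iθ_l)`, `Re (u/(1-u)) > -1/2` for `‖u‖ < 1`; so
`Re kk' > 1 - ∑ p_l/2 = 0`; a function with derivative of positive real part on a convex open set is
injective.  Periodicity is clear.  Bounds: for `Re ζ ≤ -d`: `‖u_l‖ ≤ e^{-d} < 1`,
`‖log(1-u_l)‖ ≤ ‖u_l‖/(1 - e^{-d})·const`, so `‖kk ζ - ζ‖ ≤ C_d e^{Re ζ}` and `‖kk' ζ‖ ≤ C_d`; and
`Re kk' ≥ (1 - e^{-d})/(1 + e^{-d})·…`: precisely `Re(1/2 + u/(1-u)) = (1-|u|²)/(2|1-u|²) ≥ (1-|u|)/(2(1+|u|))`, so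
`Re kk' ≥ ∑ p_l (1-e^{-d})/(2(1+e^{-d})) = (1-e^{-d})/(1+e^{-d}) =: c_d > 0` if `∑ p_l = 2`.
Hypotheses: none. -/
def StKK1 : Prop := ∀ (ι : Type) (Λ : Finset ι) (θ p : ι → ℝ), (∀ l ∈ Λ, 0 < p l) →
  ∑ l ∈ Λ, p l = 2 →
  DifferentiableOn ℂ (kk Λ θ p) LH ∧ InjOn (kk Λ θ p) LH ∧
  (∀ ζ ∈ LH, kk Λ θ p (ζ + 2 * π * I) = kk Λ θ p ζ + 2 * π * I) ∧
  (∀ ζ ∈ LH, 0 < (deriv (kk Λ θ p) ζ).re) ∧
  ∀ d : ℝ, 0 < d → ∃ C c : ℝ, 0 < C ∧ 0 < c ∧ ∀ ζ : ℂ, ζ.re ≤ -d →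
    ‖kk Λ θ p ζ - ζ‖ ≤ C * Real.exp ζ.re ∧ ‖deriv (kk Λ θ p) ζ‖ ≤ C ∧ c ≤ (deriv (kk Λ θ p) ζ).re

/-- KK2 (about 200 lines), the shifted inverse.  Let `G = kk Λ θ p`, `τ ≥ 0`.  For `τ = 0` take `P = id`.  Let
`τ > 0` and `U = {ζ ∈ LH : ∃ η, Re η < Re ζ, G η = G ζ - τ}`.  `U` is not empty: on `Re ζ ≤ -1` we have
`‖G ζ - ζ‖ ≤ C e^{Re ζ}`; for `Re ζ` very negative the equation `η = ζ - τ - (G η - η) + (G ζ - ζ)` has a solution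
(Brouwer-free: `G` is injective and open, or Rouche; simplest: on the ball `ball (ζ - τ) (τ/2)` the map
`η ↦ η - (G η - (G ζ - τ))` is a contraction into itself, since `‖G' - 1‖ ≤ 1/2` there, by Cauchy and the
first bound; `ContractingWith` or
`HasStrictDerivAt`/`surjOn_closedBall_of_nonlinearRightInverse`).  `U` is open: local inverse (`G` is an open
map: `Pool.TU.X5.isOpen_image_of_injOn`) and continuity of the inverse.  `U` is closed in `LH`: `ζ_k → ζ`,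
`η_k` with `Re η_k < Re ζ_k`, `G η_k = G ζ_k - τ` bounded; `η_k` stays bounded (`‖G η - η‖` is bounded on
`Re η ≤ sup Re ζ_k < 0` by KK1, so `‖η_k‖ ≤ ‖G η_k‖ + C`), a subsequence tends to `η`, `Re η ≤ Re ζ`,
`G η = G ζ - τ`; if `Re η = Re ζ` then `Im (G ζ - G η) = ∫ Re G'` along the vertical segment is nonzero unless
`η = ζ`, which contradicts `τ ≠ 0`.  `LH` is preconnected, so `U = LH`.  `P ζ = η` is unique (`G` injective),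
`P` is analytic (`HasDerivAt.of_local_left_inverse`, `G' ≠ 0`), injective, `Re P ζ ≤ Re ζ`,
`P (ζ + 2πi) = P ζ + 2πi` by uniqueness, `G'(P ζ) P'(ζ) = G'(ζ)`.  Last claim: for `Re ζ ≤ -1` both
`‖G ζ - ζ‖` and `‖G (P ζ) - P ζ‖` are `≤ C e^{-1}`, so `‖P ζ - (ζ - τ)‖ ≤ C` with `C` independent of `τ`.
Hypotheses: hKK1. -/
def StKK2 : Prop := ∀ (ι : Type) (Λ : Finset ι) (θ p : ι → ℝ), (∀ l ∈ Λ, 0 < p l) →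
  ∑ l ∈ Λ, p l = 2 → ∃ C : ℝ, 0 < C ∧ ∀ τ : ℝ, 0 ≤ τ → ∃ P : ℂ → ℂ,
    DifferentiableOn ℂ P LH ∧ InjOn P LH ∧ (∀ ζ ∈ LH, (P ζ).re ≤ ζ.re) ∧
    (∀ ζ ∈ LH, P (ζ + 2 * π * I) = P ζ + 2 * π * I) ∧
    (∀ ζ ∈ LH, kk Λ θ p (P ζ) = kk Λ θ p ζ - τ) ∧
    (∀ ζ ∈ LH, deriv (kk Λ θ p) (P ζ) * deriv P ζ = deriv (kk Λ θ p) ζ) ∧
    ∀ ζ : ℂ, ζ.re ≤ -1 → ‖P ζ - (ζ - τ)‖ ≤ C

/-- LD (about 120 lines): from the coordinate `log` back to the disc.  `exp ∘ P` is invariant under `2πi`, so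
`φ(w) = exp (P (log w))` is well defined on `ball 0 1 \ {0}` and analytic there (near each point use a
branch of the logarithm; or `φ = ` the function with `φ (exp ζ) = exp (P ζ)`; near `w₀ = exp ζ₀` one has
`φ(w) = exp (P (ζ₀ + log (w/w₀)))`), `‖φ w‖ ≤ ‖w‖`, so with `φ 0 = 0` it is continuous at `0` and analytic on the
disc (`Complex.differentiableOn_compl_singleton_and_continuousAt_iff` or the removable singularity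
theorem).  Injective: `φ w = φ w'`, `w = exp ζ`, `w' = exp ζ'` nonzero (if one is zero so is the other as
`exp ≠ 0`) gives `P ζ = P ζ' + 2πi n = P (ζ' + 2πi n)` (induction on `n`), so `ζ = ζ' + 2πin`.
Hypotheses: none. -/
def StLD : Prop := ∀ P : ℂ → ℂ, DifferentiableOn ℂ P LH → InjOn P LH → (∀ ζ ∈ LH, (P ζ).re ≤ ζ.re) →
  (∀ ζ ∈ LH, P (ζ + 2 * π * I) = P ζ + 2 * π * I) →
  ∃ φ : ℂ → ℂ, BU φ ∧ φ 0 = 0 ∧ (∀ z ∈ ball (0 : ℂ) 1, ‖φ z‖ ≤ ‖z‖) ∧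
    ∀ ζ ∈ LH, φ (exp ζ) = exp (P ζ)

/-- KK3 (about 200 lines), the behaviour near an atom.  Fix `l₀ ∈ Λ`, `θ₀ = θ l₀`, `p₀ = p l₀`.  On
`LH ∩ ball (iθ₀) c` put `E(ζ) = exp(-(kk ζ)/p₀)`.  Since `1 - exp(ζ - iθ₀) = -(ζ-iθ₀) g₁(ζ)` with `g₁` analytic,
`g₁(iθ₀) = 1`, `Re g₁ > 0` near `iθ₀`, and `-(ζ - iθ₀)` has positive real part,
`log(1 - exp(ζ-iθ₀)) = log(-(ζ-iθ₀)) + log g₁(ζ)` (sum of arguments in `(-π, π)`), and the other terms of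
`kk` are analytic near `iθ₀` because the angles are distinct modulo `2π`.  So `E(ζ) = -(ζ-iθ₀) e₁(ζ)` on
`LH ∩ ball (iθ₀) c` with `e₁` analytic and zero free on `ball (iθ₀) c`.  Hence there are `c, C` with: for
`ζ, η ∈ LH ∩ ball (iθ₀) c`: `‖E(ζ) - E(η)‖ ≥ ‖ζ-η‖/C` etc., and the local inverse `E⁻¹` is defined on
`ball 0 c'`, `‖E⁻¹(y) - iθ₀ + y/e₁(iθ₀)‖ ≤ C‖y‖²`.
Let `R = e^τ`, `ζ = iθ₀ - t` with `t > 0`, `u = t R^{1/p₀} ≤ c₃` (small constant).  Let `η` be the point near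
`iθ₀` with `E(η) = R^{1/p₀} E(ζ)`: `‖η - (iθ₀ - u)‖ ≤ C u²`, so `η ∈ LH`, `Re η ≤ -u/2`, `‖η - iθ₀‖ ≤ 2u`.  Then
`exp(-(kk η)/p₀) = exp(-(kk ζ - τ)/p₀)`, so `kk η - (kk ζ - τ) ∈ 2πi p₀ ℤ`, and its imaginary part is small
(`Im kk η = -p₀ arg(-(η-iθ₀)) + Im(analytic)`, `arg` of `-(η - iθ₀)` and of `t` are near `0`, the analytic
parts differ by `O(u)`): so `kk η = kk ζ - τ` and `η = P ζ` by injectivity.  So for `u ≤ c₃`: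
`‖P ζ - iθ₀‖ ≤ 2u`, `Re (P ζ) ≤ -u/2`, and `P'(ζ) = kk'(ζ)/kk'(P ζ)`, where `kk'(ζ) = -p₀/(ζ-iθ₀) + O(1)`, so
`‖P'(ζ)‖ ≥ c R^{1/p₀}`.  Range `c₃ ≤ u ≤ 1`: compare with `t' = c₃ t/u` (then `u' = c₃`): `P` is injective on
`LH`, `ζ' = iθ₀ - t'`, `t' ≤ t ≤ t'/c₃`.  Distortion (StD3, chain of discs in `LH` of bounded number): `‖P'(ζ)‖ ≥
c‖P'(ζ')‖`; `Re P ζ ≤ Re ζ`… is not enough, so use the Schwarz-Pick lemma in the half plane: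
`‖P ζ - P ζ'‖ ≤ C' |Re P ζ'|` and `|Re P ζ| ≥ c|Re P ζ'|` because `ζ, ζ'` have bounded hyperbolic distance and
`P : LH → LH`.  This gives all claims for `u ≤ 1`.  Hypotheses: hKK1 hD3. -/
def StKK3 : Prop := ∀ (ι : Type) (Λ : Finset ι) (θ p : ι → ℝ), (∀ l ∈ Λ, 0 < p l) →
  ∑ l ∈ Λ, p l = 2 → (∀ l ∈ Λ, ∀ l' ∈ Λ, exp (θ l * I) = exp (θ l' * I) → l = l') →
  ∃ C c : ℝ, 0 < C ∧ 0 < c ∧ ∀ (τ : ℝ) (P : ℂ → ℂ), 0 ≤ τ →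
    DifferentiableOn ℂ P LH → InjOn P LH → (∀ ζ ∈ LH, (P ζ).re ≤ ζ.re) →
    (∀ ζ ∈ LH, kk Λ θ p (P ζ) = kk Λ θ p ζ - τ) →
    ∀ l ∈ Λ, ∀ t : ℝ, 0 < t → t ≤ 1 → t * Real.exp (τ / p l) ≤ 1 →
      ‖P (θ l * I - t) - θ l * I‖ ≤ C * (t * Real.exp (τ / p l)) ∧
      (P (θ l * I - t)).re ≤ -(c * (t * Real.exp (τ / p l))) ∧
      c * Real.exp (τ / p l) ≤ ‖deriv P (θ l * I - t)‖

/-- STG (about 120 lines), one stage in the disc.  Combine KK2, KK3, LD: `φ (exp ζ) = exp (P ζ)`, `τ = log R`,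
`ξ_l = e^{iθ_l}`.  `‖φ z‖ ≤ ‖z‖ e^{C-τ}` for `‖z‖ ≤ e^{-1}` (last claim of KK2) gives `‖φ'(0)‖ ≤ C/R` (Cauchy or
Schwarz).  For `t ∈ (0,1)`, `(1-t)ξ_l = exp(iθ_l + log(1-t))`, `t' = -log(1-t) ≥ t`, and `t' ≤ 2t` for
`t ≤ 1/2`.  If `t' R^{1/p_l} ≤ 1` and `t' ≤ 1` apply KK3: `‖P - iθ_l‖ ≤ C u`, `Re P ≤ -cu`, which gives
`‖φ - ξ_l‖ ≤ e^C·C u`, `1 - ‖φ‖ = 1 - e^{Re P} ≥ c'u`, and
`φ'(z) z = exp(P ζ) P'(ζ)`, `‖exp (P ζ)‖ ≥ e^{-Cu} ≥ e^{-C}`.  In the remaining range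
`1/2 ≤ t R^{1/p_l} ≤ 1` or `t ≥ 1/2` (then `R ≤ 2^{p_l} ≤ 4`) compare with the point with `t` replaced by
`t/4` (or `t/100`) by StD3 and the Schwarz-Pick lemma (`MapsTo φ 𝔻 𝔻`, bounded hyperbolic distance).
Hypotheses: hKK2 hKK3 hLD hD3. -/
def StStg : Prop := ∀ (ι : Type) (Λ : Finset ι) (ξ : ι → ℂ) (p : ι → ℝ), (∀ l ∈ Λ, 0 < p l) →
  ∑ l ∈ Λ, p l = 2 → (∀ l ∈ Λ, ‖ξ l‖ = 1) → (∀ l ∈ Λ, ∀ l' ∈ Λ, ξ l = ξ l' → l = l') →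
  ∃ C c : ℝ, 0 < C ∧ 0 < c ∧ ∀ R : ℝ, 1 ≤ R → ∃ φ : ℂ → ℂ, BU φ ∧ φ 0 = 0 ∧
    (∀ z ∈ ball (0 : ℂ) 1, ‖φ z‖ ≤ ‖z‖) ∧
    ‖deriv φ 0‖ ≤ C / R ∧ c / R ≤ ‖deriv φ 0‖ ∧
    ∀ l ∈ Λ, ∀ t : ℝ, 0 < t → t < 1 → t * R ^ (1 / p l) ≤ 1 →
      ‖φ ((1 - t) * ξ l) - ξ l‖ ≤ C * (t * R ^ (1 / p l)) ∧
      c * (t * R ^ (1 / p l)) ≤ 1 - ‖φ ((1 - t) * ξ l)‖ ∧
      c * R ^ (1 / p l) ≤ ‖deriv φ ((1 - t) * ξ l)‖

/-- HYP (about 120 lines), comparison of the derivative at points of bounded hyperbolic distance.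
`z, w ∈ 𝔻`, `‖z - ξ‖ ≤ C u`, `1 - ‖z‖ ≥ c u`, the same for `w` (`u > 0`).  Then `‖K'(w)‖ ≤ C' ‖K'(z)‖` for all
`K` univalent on `𝔻`.  Proof: the segment `[z, w]` lies in `{1 - ‖x‖ ≥ cu}` (convexity of the norm), has
length `≤ 2Cu`; divide it into `⌈8C/c⌉` parts of length `≤ cu/4` and apply StD3 with `d = cu` in each.
Hypotheses: hD3. -/
def StHyp : Prop := ∀ C c : ℝ, 0 < C → 0 < c → ∃ C' : ℝ, 0 < C' ∧ ∀ (K : ℂ → ℂ) (ξ z w : ℂ) (u : ℝ),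
  Un K (ball 0 1) → 0 < u → ‖z - ξ‖ ≤ C * u → ‖w - ξ‖ ≤ C * u → c * u ≤ 1 - ‖z‖ → c * u ≤ 1 - ‖w‖ →
  ‖deriv K w‖ ≤ C' * ‖deriv K z‖

/-- HK (about 200 lines), all stages.  Induction on `r` for all profiles.  `r = 0`: `K z = z`, `AA = ss = 0`,
`c = 1` (note `(1 - N^0) ξ = 0`).  Step `r+1`: apply the induction hypothesis to the shifted profile
`b ↦ α (b+1)`, etc., with `r` stages: `K₁`, constant `c₁`; apply STG with `Λ = act 0`, `p 0`, `R = N^{α 0}`: `φ`.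
`K = (R/C) K₁ ∘ φ` with the constant `C` of STG.  `‖K'(0)‖ = (R/C)‖K₁'(0)‖‖φ'(0)‖ ≤ 1`.  Let
`l ∈ act 0`, `s₁ = ss` of the shifted profile, `ss = s₁ + α 0/p 0 l`, `t = N^{-ss}`,
`u = t R^{1/p 0 l} = N^{-s₁} ≤ 1`.  If `t < 1`: `w = φ((1-t)ξ_l)` satisfies `‖w - ξ_l‖ ≤ Cu`, `1-‖w‖ ≥ cu`, and the
point `z₁ = (1-u)ξ_l` satisfies `‖z₁ - ξ_l‖ = u`, `1 - ‖z₁‖ = u`; by HYP
`‖K'((1-t)ξ_l)‖ = (R/C)‖K₁'(w)‖‖φ'‖ ≥ (R/C) (‖K₁'(z₁)‖/C') c R^{1/p 0 l}`, and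
`‖K₁'(z₁)‖ ≥ c₁ N^{A₁} N^{s₁}`, where `N^{s₁} R^{1/p} = N^{ss}`, `R N^{A₁} = N^{AA}`.  If `t = 1` then (`N > 1`)
`ss = 0`, so `α 0 = 0`, `s₁ = 0`, or `N = 1`; in all these cases `R^{...}` are `1` or `N = 1`, the claim is
about `K'(0)`: `‖K'(0)‖ ≥ (R/C)‖K₁'(0)‖ c/R` (for `N = 1` the point `(1-u)ξ_l` is `0` too; for `α 0 = 0`,
`s₁ = 0` the same).  Let `l ∉ act 0`: then `l ∉ act b` for all `b`, `AA = ss = 0`, and again the claim is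
`‖K'(0)‖ ≥ c`.  Constants are independent of `N`.  Hypotheses: hStg hHyp. -/
def StHK : Prop := ∀ (m : ℕ) (ξ : Fin (m + 1) → ℂ), Function.Injective ξ → (∀ l, ‖ξ l‖ = 1) →
  ∀ (r : ℕ) (α : ℕ → ℝ) (p : ℕ → Fin (m + 1) → ℝ) (act : ℕ → Finset (Fin (m + 1))),
  Prof r α p act → ∃ c : ℝ, 0 < c ∧ ∀ N : ℝ, 1 ≤ N → ∃ K : ℂ → ℂ, Un K (ball 0 1) ∧ K 0 = 0 ∧
    ‖deriv K 0‖ ≤ 1 ∧ ∀ l, c * N ^ (AA r α act l) ≤
      ‖deriv K (((1 - N ^ (-(ss r α p act l)) : ℝ) : ℂ) * ξ l)‖ * N ^ (-(ss r α p act l))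

end Helper5.SR
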