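import Pool.Agent.Helper5.SR.St1

/-!
# Project SR (MP_d6acc2_an, stage 2, lower half), part 2: a touching fractal map and its tower
-/

set_option autoImplicit false

namespace Helper5.SR

open Complex MeasureTheory Set Metric Filter Topology
open scoped Real
open Pool.Agent.Helper60.Rel (LH tc Admissible ClassS)
open Pool.Agent.Helper51.LT

/-! ## Definitions -/

/-- supply of bounded univalent functions with large integral means and exponent `β` -/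
def Sup (β : ℝ) : Prop := ∀ A K : ℝ, ∃ (h : ℂ → ℂ) (ρ : ℝ), BU h ∧ h 0 = 0 ∧ 1 / 2 ≤ ‖deriv h 0‖ ∧
  0 < ρ ∧ ρ < 1 ∧ A * (1 - ρ) ≤ 1 ∧ K * (1 - ρ) ^ (-β) < IM h ρ

/-- the conformal map of the right half disc onto the unit disc, `XX 0 = 1` -/
noncomputable def XX (z : ℂ) : ℂ := (1 - 2 * z - z ^ 2) / (1 + 2 * z - z ^ 2)

/-- `ψ` is a touching map obtained from `h` -/
def TT (h ψ : ℂ → ℂ) : Prop :=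
  BU ψ ∧ ψ 0 = 0 ∧ ψ 1 = 1 ∧ DifferentiableOn ℂ ψ (ball 0 1 ∪ ball 1 (1 / 2000)) ∧
  (∀ x ∈ ball (1 : ℂ) (1 / 2000), ‖ψ x‖ ≤ 3) ∧
  (∀ x ∈ ball (0 : ℂ) 1, ‖x‖ ≤ 10 ^ 7 * ‖ψ x‖) ∧
  (∀ x ∈ ball (0 : ℂ) 1, x.re ≤ -(3 / 10) → ‖ψ x‖ ≤ 1 / 2) ∧
  ∀ z ∈ ball (0 : ℂ) 1, 0 < z.re → XX z ∈ ball (0 : ℂ) 1 ∧ ‖deriv h z‖ ≤ 10 ^ 5 * ‖deriv ψ (XX z)‖

/-- self maps of the left half plane in the logarithmic coordinate -/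
def LC (C : ℝ) (Φ : ℂ → ℂ) : Prop :=
  DifferentiableOn ℂ Φ LH ∧ InjOn Φ LH ∧ (∀ ζ ∈ LH, Φ (ζ + 2 * π * I) = Φ ζ + 2 * π * I) ∧
  (∀ ζ ∈ LH, (Φ ζ).re ≤ ζ.re) ∧ ∀ ζ : ℂ, ζ.re ≤ -1 → ‖Φ ζ - ζ‖ ≤ C

/-- depth between `1/C` and `C` -/
def Deep (C : ℝ) (w : ℂ) : Prop := -C ≤ w.re ∧ w.re ≤ -(1 / C)

/-- touching behaviour at `0` with angular derivative `κ` -/
def Tou (C κ : ℝ) (Φ : ℂ → ℂ) : Prop :=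
  1 ≤ κ ∧ κ ≤ C ∧ ∀ ζ ∈ LH, ‖ζ‖ ≤ 1 / C →
    ‖Φ ζ - κ * ζ‖ ≤ C * ‖ζ‖ ^ 2 ∧ ‖deriv Φ ζ - κ‖ ≤ C * ‖ζ‖

open Classical in
/-- touching map with gain `Q^β` -/
def TM (C κ β : ℝ) (Q : ℕ) (Φ : ℂ → ℂ) : Prop :=
  LC C Φ ∧ Tou C κ Φ ∧ ∀ w : ℂ, Deep C w →
    (Q : ℝ) ^ β * Q ≤ ∑ i ∈ Finset.range Q,
      if Deep C (Φ ((w + 2 * π * i * I) / Q)) then ‖deriv Φ ((w + 2 * π * i * I) / Q)‖ else 0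

/-- the tower -/
noncomputable def TW (Φ : ℂ → ℂ) (Q : ℕ) : ℕ → ℂ → ℂ
  | 0 => fun ζ => ζ
  | k + 1 => fun ζ => Φ (TW Φ Q k (Q * ζ) / Q)

/-- the point of depth `Q^(-k)` -/
noncomputable def pt (Q k : ℕ) (τ : ℝ) : ℂ := -(((Q : ℝ) ^ k)⁻¹ : ℝ) + τ * I

/-! ## The touching map -/

/-- SUP (about 60 lines).  If `0 ≤ β < γ` and `HU γ`: apply HUMP (`StHump`) with `γ' = β`, `N₀ = 1`, the given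
constants `max A 2`, `K`: `A(1-lam) ≤ 1` gives `lam ≥ 1/2`.  If `β < 0`: `h = id`, `IM h ρ = 2π`,
`K (1-ρ)^(-β) → 0` as `ρ → 1`.  (If `K ≤ 0` any `ρ` close to `1` works.)  Hypotheses: hHump. -/
def StSup : Prop := ∀ β : ℝ, (β < 0 ∨ ∃ γ : ℝ, β < γ ∧ HU γ) → Sup β

/-- ZF (about 150 lines), the inverse of `XX`.  Put `v = (1-x)/(1+x)` (`Re v > 0` on the unit disc),
`Z x = v/(1 + √(1+v²))` with the principal square root (`cpow (1/2)`): `v²` is not in `(-∞, 0]`, so `1 + v²` is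
in the slit plane; for `x` in `ball 1 (1/2000)`: `‖v‖ ≤ 1/2000` and `1+v²` is near `1`.
`Re √ > 0`, so the denominator is nonzero, `‖1+√‖ ≥ 1` and `‖Z‖ ≤ ‖v‖`.  `z = Z x` satisfies
`v(1 - z²) = 2z` (with `s = √(1+v²)`: `1 - v²/(1+s)² = ((1+s)² - (s²-1))/(1+s)² = 2/(1+s)`), and
`z = (s-1)/v` if `v ≠ 0`.  Claim `‖z‖ < 1`, `Re z > 0` for `x ∈ 𝔻`: `Re v |1-z²|² = 2 Re z (1-‖z‖²)`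
(from `v = 2z/(1-z²)`; `z² ≠ 1` since otherwise `0 = 2z`), so `Re z` and `1-‖z‖²` have the same strict sign;
both negative would be `Re z < 0`, but `Re z = Re(v/(1+s))`: the map is continuous on the connected disc,
`Re z ≠ 0` everywhere and `Re z > 0` at `x = 0` (`v = 1`, `z = √2 - 1`): intermediate value.
`XX (Z x) = x`: `XX z = (1 - v')/(1+v')` with `v' = 2z/(1-z²) = v`.  Conversely for `‖z‖ < 1`, `Re z > 0`: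
`v = 2z/(1-z²)` has positive real part, `XX z = (1-v)/(1+v) ∈ 𝔻`, and `z` and `Z (XX z)` are two roots of
`v z² + 2 z - v = 0` whose product is `-1`, both of modulus `< 1`, so they are equal.
Hypotheses: none. -/
def StZf : Prop := ∃ Z : ℂ → ℂ, DifferentiableOn ℂ Z (ball 0 1 ∪ ball 1 (1 / 2000)) ∧ Z 1 = 0 ∧
  (∀ x ∈ ball (0 : ℂ) 1, ‖Z x‖ < 1 ∧ 0 < (Z x).re ∧ XX (Z x) = x) ∧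
  (∀ x ∈ ball (1 : ℂ) (1 / 2000), ‖Z x‖ ≤ 1 / 2000) ∧
  ∀ z ∈ ball (0 : ℂ) 1, 0 < z.re → XX z ∈ ball (0 : ℂ) 1 ∧ Z (XX z) = z

/-- XXI (about 70 lines), identities and inequalities for `XX`.  With `a = 1 - z²`, `b = 2z`: `XX z = (a-b)/(a+b)`,
`|a+b|² = |a|² + |b|² + 4 Re z (1-|z|²) ≥ |a|²+|b|² ≥ (1-|z|²)² + 4|z|² = (1+|z|²)²` for `Re z ≥ 0`, `|z| ≤ 1`;
`|a + b| ≤ 4`.  (i) derivative `XX' = -4(1+z²)/(1+2z-z²)²`, modulus `≤ 8`.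
(ii) `1 - |XX|² = 8 Re z (1-|z|²)/|a+b|²`.  (iii) `XX z - XX w = 4 (w-z)(1+zw)/((1+2z-z²)(1+2w-w²))`.
(iv) for `|z| ≤ 1/2`, `Re z ≥ 0`: `Re XX = (|a|²-|b|²)/|a+b|² ≥ -7/25` (numerator `≥ 9/16 - 1`; if it is negative
divide by `|a|²+|b|²`).  (v) for `z = ρ e^{it}`, `|t| ≤ π/4`, `9/10 ≤ ρ < 1`, `1-ρ ≤ 1/1000`: `Re XX ≤ -8/25`:
`|a|² ≤ (1-ρ²)² + 2ρ²·…`: on `|z| = 1` it is `-(1 - sin²t)/(1+sin²t) ≤ -1/3`, and `XX` is `8`-Lipschitz.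
Hypotheses: none. -/
def StXXI : Prop :=
  (∀ z ∈ ball (0 : ℂ) 1, 0 ≤ z.re → HasDerivAt XX (-4 * (1 + z ^ 2) / (1 + 2 * z - z ^ 2) ^ 2) z ∧
    ‖deriv XX z‖ ≤ 8 ∧ 1 ≤ ‖1 + 2 * z - z ^ 2‖ ∧ ‖1 + 2 * z - z ^ 2‖ ≤ 4 ∧
    1 - ‖XX z‖ ^ 2 = 8 * z.re * (1 - ‖z‖ ^ 2) / ‖1 + 2 * z - z ^ 2‖ ^ 2 ∧
    (‖z‖ ≤ 1 / 2 → -(7 / 25) ≤ (XX z).re)) ∧
  (∀ z ∈ ball (0 : ℂ) 1, ∀ w ∈ ball (0 : ℂ) 1, 0 ≤ z.re → 0 ≤ w.re →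
    XX z - XX w = 4 * (w - z) * (1 + z * w) / ((1 + 2 * z - z ^ 2) * (1 + 2 * w - w ^ 2))) ∧
  ∀ ρ t : ℝ, 999 / 1000 ≤ ρ → ρ < 1 → |t| ≤ π / 4 → (XX (ρ * exp (t * I))).re ≤ -(8 / 25)

/-- TA (about 250 lines), the touching map.  Let `a = h'(0)`, `1/2 ≤ |a| ≤ 1` (Schwarz), `e₀ = a/|a|`,
`ρ₀ = 1/1000`, `c = -ρ₀ e₀`.  (1) KOE with `z = 0`, `d = 1`: `|h(z)| ≥ |a||z|/4`.
(2) `h(z) = a(z + z² g(z))` with `g` analytic on `𝔻`, `|g| ≤ 3` (`|h/a - z| ≤ 3`, maximum principle on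
`|z| = r → 1`).  (3) for `Re z ≥ 0`: `|h(z)-c|² = |h|² + 2ρ₀|a| Re(h/a) + ρ₀² ≥ |a|²|z|²/16 - 6ρ₀|a||z|² + ρ₀²
≥ ρ₀² + |z|²/100`; so `|h(z) - c| ≥ ρ₀`, `>` if `z ≠ 0`.  (4) `ψ₁(x) = ρ₀/(h(Z x) - c)` with `Z` from ZF, is
analytic and injective on `𝔻`, `|ψ₁| < 1` there, `|ψ₁| ≥ ρ₀/2`; analytic on `ball 1 (1/2000)`, since
`|h(Z x)| ≤ |Z x| ≤ ρ₀/2` there (Schwarz), `|ψ₁| ≤ 2` there; `ψ₁(1) = ρ₀/(-c)` has modulus one.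
(5) `b = ψ₁(0)`, `Z 0 = √2 - 1`, `|b| ≤ ρ₀/(0.0517 - ρ₀) ≤ 1/50`.  `ψ₂ = (ψ₁ - b)/(1 - b̄ψ₁)`, `ψ = ψ₂/ψ₂(1)`
(`|ψ₂(1)| = 1`).  BU, `ψ 0 = 0`, `ψ 1 = 1`, `|ψ| ≤ 3` on `ball 1 (1/2000)`.  (6) lower bound: KOE for `ψ` at `0`:
`|ψ(x)| ≥ |ψ'(0)||x|/4`, `|ψ'(0)| ≥ |ψ₁'(0)| = ρ₀ |h'(Z 0)||Z'(0)|/|h(Z0)-c|² ≥ (1/1000)(0.1·½)(1/8)/1.01`
(D2 with `R=1, t=0`: `|h'(Z 0)| ≥ (1-Z 0)^4 |a| ≥ 0.1 |a|`; `Z'(x) = 1/XX'(Z x)`, `|XX'| ≤ 8`), so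
`|ψ'(0)| ≥ 6·10^{-6}`.  (7) if `Re x ≤ -3/10` then `z = Z x` has `|z| > 1/2` by XXI (iv), so
`|h(z)-c| ≥ 1/16 - 1/1000`, `|ψ₁| ≤ 1/60`, `|ψ| ≤ 1/2`.  (8) `|ψ'(x)| ≥ (1-|b|²)/(1+|b|)² |ψ₁'(x)| ≥ (9/10)|ψ₁'|`,
`|ψ₁'(XX z)| = ρ₀|h'(z)|/(|XX'(z)||h(z)-c|²) ≥ (1/1000)|h'(z)|/(8·1.01²)`.
Hypotheses: hKoe hD2 hZf hXXI. -/
def StTa : Prop := ∀ h : ℂ → ℂ, BU h → h 0 = 0 → 1 / 2 ≤ ‖deriv h 0‖ → ∃ ψ : ℂ → ℂ, TT h ψ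

/-- TL (about 250 lines), logarithmic coordinate.  `ψ(x)/x` (with the value `ψ'(0)` at `0`) is analytic and zero
free on `𝔻`; let `L₁` be a logarithm of it on `𝔻` (`exists_log_disc` after dividing by the value at `0`).
`Re L₁ = log|ψ/x| ∈ [-17, 0]` (`|ψ| ≤ |x|` by Schwarz and `|x| ≤ 10^7|ψ|`).  Near `1`: `|ψ'| ≤ 3·4000` on
`ball 1 (1/4000)` (Cauchy), so `|ψ(x)/x - 1| ≤ 1/2` on `ball 1 c₁`, `c₁` universal, and `L₀ = Log(ψ(x)/x)` is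
analytic there, `|L₀| ≤ 1`, `L₀(1) = 0`.  On the connected set `𝔻 ∩ ball 1 c₁`: `L₁ - L₀ = 2πin` constant;
replace `L₁` by `L₁ - 2πin =: L`.  `Φ(ζ) = ζ + L(exp ζ)`.  LC: analytic, periodic, `Re Φ ≤ Re ζ` (Schwarz);
injective: `Φ ζ = Φ ζ'` gives `ψ(e^ζ) = ψ(e^ζ')`, `e^ζ = e^ζ'`, `ζ = ζ' + 2πin`, and then `Φ ζ = Φ ζ' + 2πin`, `n = 0`.
Bound of `L` on `|x| ≤ e^{-1}`: `|L'(x)| ≤ 2·17/(1-|x|)` (a function with real part in an interval of length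
`17`: apply Cauchy/Borel-Caratheodory `Complex.borelCaratheodory...` or: `exp` trick; any universal bound is
fine) and `|L(1 - c₁/2)| = |L₀(1-c₁/2)| ≤ 1`; integrate along the segment.  Touching: on `ball 0 c₂ ∩ LH`
`Φ(ζ) = Φ₀(ζ) := ζ + L₀(exp ζ)`, `Φ₀` analytic on `ball 0 c₂`, bounded by `2`, `Φ₀(0) = 0`; Taylor and Cauchy:
`|Φ₀(ζ) - k₀ζ| ≤ C|ζ|²`, `|Φ₀'(ζ) - k₀| ≤ C|ζ|` for `|ζ| ≤ c₂/2`, `k₀ = Φ₀'(0)`, `|k₀| ≤ C`.  `k₀` is real and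
`≥ 1`: `Re((k₀-1)ζ) ≤ C|ζ|²` for small `ζ ∈ LH` (from `Re Φ ≤ Re ζ`); put `ζ = s e^{iφ}`, divide by `s → 0`:
`Re((k₀-1)e^{iφ}) ≤ 0` for `cos φ < 0`, hence also for `φ = ± π/2` by continuity, so `Im (k₀ - 1) = 0`, and
`φ = π` gives `k₀ ≥ 1`.  `κ = Re k₀`.  Hypotheses: none. -/
def StTl : Prop := ∃ C : ℝ, 1 ≤ C ∧ ∀ h ψ : ℂ → ℂ, TT h ψ →
  ∃ (Φ : ℂ → ℂ) (κ : ℝ), LC C Φ ∧ Tou C κ Φ ∧ ∀ ζ ∈ LH, exp (Φ ζ) = ψ (exp ζ)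

open Classical in
/-- TG (about 250 lines), the gain.  `z_t = ρe^{it}`, `x_t = XX z_t`, `|t| ≤ π/4`.  By XXI: `x_t ∈ 𝔻`,
`c₁/Q ≤ 1-|x_t| ≤ C₁/Q` (`Re z_t ≥ 0.7`, `1/Q ≤ 1-ρ ≤ 2/Q`), `Re x_t ≤ -8/25`,
`|x_t - x_{t'}| ≥ |z_t - z_{t'}|/4 ≥ |t-t'|/8` (`|1+z_t z_{t'}| ≥ 1`), `|h'(z_t)| ≤ 10^5|ψ'(x_t)|`.
`p_i = (w+2πi·i)/Q`, `y_i = exp p_i`: `|y_i| = e^{Re w/Q}`, so `c₂/Q ≤ 1-|y_i| ≤ C₂/Q`, and the arguments are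
equally spaced with step `2π/Q`; so for every `t` there is `i = i(t)` with
`|x_t - y_i| ≤ C₃/Q` (difference of moduli `≤ (C₁+C₂)/Q`, of arguments `≤ π/Q`).  For such `i` (`Q` large):
`Re y_i ≤ -3/10`, so `|ψ(y_i)| ≤ 1/2` and `|ψ(y_i)| ≥ 10^{-7}/2`, i.e. `Deep C (Φ p_i)` (`|ψ(y_i)| = e^{Re Φ(p_i)}`,
`log(2·10^7) < 17 ≤ C`).  `Φ'(p_i) = y_i ψ'(y_i)/ψ(y_i)`, so `|Φ'(p_i)| ≥ |ψ'(y_i)|/2 ≥ c₃|ψ'(x_t)|` by HYP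
(`K = ψ`, `ξ = y_i`, `u = 1/Q`).  So for all `t`:
`|h'(z_t)| ≤ C₄ ∑_i [Deep C (Φ p_i)] |Φ'(p_i)| 1{|x_t - y_i| ≤ C₃/Q}`.  Integrate over `|t| ≤ π/4`: the set
`{t : |x_t - y_i| ≤ C₃/Q}` has diameter `≤ 16C₃/Q`, so measure `≤ 16C₃/Q`.
Hypotheses: hXXI hHyp. -/
def StTg : Prop := ∀ C : ℝ, 17 ≤ C → ∃ (c : ℝ) (Q₁ : ℕ), 0 < c ∧ 2 ≤ Q₁ ∧
  ∀ (h ψ Φ : ℂ → ℂ) (ρ : ℝ) (Q : ℕ), BU h → TT h ψ → DifferentiableOn ℂ Φ LH →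
    (∀ ζ ∈ LH, exp (Φ ζ) = ψ (exp ζ)) → Q₁ ≤ Q → 0 < ρ → ρ < 1 → 1 ≤ Q * (1 - ρ) →
    Q * (1 - ρ) ≤ 2 → ∀ w : ℂ, Deep C w →
    c * Q * ∫ t in (-(π / 4))..(π / 4), ‖deriv h (ρ * exp (t * I))‖ ≤
      ∑ i ∈ Finset.range Q,
        if Deep C (Φ ((w + 2 * π * i * I) / Q)) then ‖deriv Φ ((w + 2 * π * i * I) / Q)‖ else 0

/-- TF (about 120 lines), assembly.  `C = max 17` (constant of TL) (`LC`, `Tou` are monotone in `C`).  Given `β`,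
`Sup β`, `Q₀`: take `h, ρ` from `Sup β` with large `A, K`; `Q = ⌈1/(1-ρ)⌉` (so `1 ≤ Q(1-ρ) ≤ 2`, `Q ≥ A`).
`IM h ρ` is the sum of four integrals over arcs of length `π/2` centered at `iπ/2`, `i = 0,1,2,3`; one of them
is `≥ IM h ρ/4`; replace `h` by `h(e^{iπ i/2} z)` (BU, `|h'(0)|` unchanged).  TA, TL, TG:
`∑ ≥ c Q (K/4)(1-ρ)^{-β} ≥ c Q (K/4) 2^{-|β|} Q^β ≥ Q^β Q` for `K ≥ 4·2^{|β|}/c`.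
Hypotheses: hTa hTl hTg. -/
def StTf : Prop := ∃ C : ℝ, 17 ≤ C ∧ ∀ β : ℝ, Sup β → ∀ Q₀ : ℕ, ∃ (Q : ℕ) (κ : ℝ) (Φ : ℂ → ℂ),
  Q₀ ≤ Q ∧ TM C κ β Q Φ

/-! ## The tower -/

/-- TW1 (about 120 lines).  Induction on `k`.  `T_{k+1} ζ = Φ(T_k(Qζ)/Q)`; `Re(T_k(Qζ)/Q) ≤ Re ζ < 0`; injective and
analytic compositions; `T_k(Qζ + 2πiQ) = T_k(Qζ) + 2πiQ` (`Q` times the period); for `Re ζ ≤ -1`: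
`‖T_{k+1}ζ - ζ‖ ≤ ‖Φ p - p‖ + ‖T_k(Qζ) - Qζ‖/Q ≤ C + 2C/Q ≤ 2C` with `p = T_k(Qζ)/Q`, `Re p ≤ -1`.
Second claim: chain rule, `T_{k+1}'(ζ) = Φ'(T_k(Qζ)/Q) T_k'(Qζ)`.  Hypotheses: none. -/
def StTw1 : Prop := ∀ (C : ℝ) (Q : ℕ) (Φ : ℂ → ℂ), 0 ≤ C → 2 ≤ Q → LC C Φ → ∀ k : ℕ,
  LC (2 * C) (TW Φ Q k) ∧ ∀ ζ ∈ LH,
    deriv (TW Φ Q (k + 1)) ζ = deriv Φ (TW Φ Q k (Q * ζ) / Q) * deriv (TW Φ Q k) (Q * ζ)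

open Classical in
/-- TW2 (about 200 lines), mass.  `k = 0`: `TW 0 (pt Q 0 τ) = -1 + iτ` is deep, derivative `1`.  Step: with
`D_k(τ) = [Deep C (T_k(pt Q k τ))] ‖T_k'(pt Q k τ)‖` (`2π`-periodic, bounded and measurable, as `T_k, T_k'` are
continuous on the line).  `Q · pt Q (k+1) τ = pt Q k (Qτ)`.  By TW1:
`D_{k+1}(τ) ≥ [Deep C (T_k(pt Q k (Qτ)))] [Deep C (Φ(T_k(pt Q k (Qτ))/Q))] ‖Φ'(…)‖ ‖T_k'(pt Q k (Qτ))‖`.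
`∫_0^{2π} F(Qτ) dτ = (1/Q) ∫_0^{2πQ} F = (1/Q) ∑_{i<Q} ∫_0^{2π} F(τ' + 2πi) dτ'`, and
`T_k(pt Q k (τ'+2πi)) = T_k(pt Q k τ') + 2πi·i`, so with `w = T_k(pt Q k τ')` (deep) the inner sum over `i` is the
sum in the definition of `TM`, `≥ Q^β Q`.  So the integral is `≥ Q^β ∫ D_k`.  Hypotheses: hTw1. -/
def StTw2 : Prop := ∀ (C κ β : ℝ) (Q : ℕ) (Φ : ℂ → ℂ), 1 ≤ C → 2 ≤ Q → TM C κ β Q Φ → ∀ k : ℕ,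
  2 * π * ((Q : ℝ) ^ β) ^ k ≤ ∫ τ in (0 : ℝ)..(2 * π),
    if Deep C (TW Φ Q k (pt Q k τ)) then ‖deriv (TW Φ Q k) (pt Q k τ)‖ else 0

/-- DIS (about 60 lines).  `‖T'(ζ)‖ ≤ 30/(-Re ζ)` for `-1 ≤ Re ζ < 0`
(`Pool.Agent.Helper46.Rel.deriv_bound_of bieb`), integrate from `-1 + i Im ζ` to `ζ`:
`‖T ζ - T(-1 + i Im ζ)‖ ≤ 30 log(1/(-Re ζ))`, and `‖T(-1+i Im ζ) - (-1 + i Im ζ)‖ ≤ C`.  Hypotheses: none. -/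
def StDis : Prop := ∀ (C : ℝ) (T : ℂ → ℂ), LC C T → ∀ ζ : ℂ, -1 ≤ ζ.re → ζ.re < 0 →
  ‖T ζ - ζ‖ ≤ C + 1 + 30 * Real.log (1 / (-ζ.re))

open Classical in
/-- TW4 (about 150 lines), mass with normalized imaginary part.  Let `f(τ) = [Deep] ‖T_k'(pt Q k τ)‖`
(`2π`-periodic) and `Z = {τ : 0 ≤ Im T_k(pt Q k τ) < 2π}`.  For every `τ ∈ [0, 2π)` there is `n ∈ ℤ` with
`τ + 2πn ∈ Z` (`Im T_k(pt Q k (τ+2πn)) = Im T_k(pt Q k τ) + 2πn`), and `|Im T_k(pt Q k τ) - τ| ≤ 2C+1+30 k log Q`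
by DIS (`-Re = Q^{-k}`; for `k = 0` too), so `τ + 2πn ∈ [-D, D]`.  Hence
`∫_{-D}^{D} 1_Z f ≥ ∑_{|n| ≤ n₀} ∫_0^{2π} 1_Z(τ+2πn) 1_{|τ + 2πn| ≤ D} f(τ) dτ ≥ ∫_0^{2π} f`.
Hypotheses: hTw1 hTw2 hDis. -/
def StTw4 : Prop := ∀ (C κ β : ℝ) (Q : ℕ) (Φ : ℂ → ℂ), 1 ≤ C → 2 ≤ Q → TM C κ β Q Φ → ∀ (k : ℕ) (D : ℝ),
  D = 2 * C + 20 + 30 * k * Real.log Q →
  2 * π * ((Q : ℝ) ^ β) ^ k ≤ ∫ τ in (-D)..D,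
    if Deep C (TW Φ Q k (pt Q k τ)) ∧ 0 ≤ (TW Φ Q k (pt Q k τ)).im ∧
      (TW Φ Q k (pt Q k τ)).im < 2 * π then ‖deriv (TW Φ Q k) (pt Q k τ)‖ else 0

/-- TW3 (about 200 lines), the touching chain.  Let `w = T_{k-a}(pt Q (k-a) τ)`, `W = C + 7 ≥ ‖w‖`, `λ = κ/Q`.
`y_0 = w`, `y_{i+1} = Φ(y_i/Q)`; by the recursion of the tower `y_i = T_{k-a+i}(pt Q (k-a+i) (τ/Q^i))`
(`Q · pt Q (n+1) (τ/Q^{i+1}) = pt Q n (τ/Q^i)`), so `y_a = T_k(pt Q k (τ/Q^a))`; all `y_i ∈ LH`.  Write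
`y_i = λ^i (w + ε_i)`; induction: `‖ε_i‖ ≤ 8CW²/Q ≤ W`, since `‖y_i/Q‖ ≤ 2W λ^i/Q ≤ 1/C` and
`‖y_{i+1} - λ y_i‖ ≤ C‖y_i‖²/Q²` (Tou), so `‖ε_{i+1} - ε_i‖ ≤ C (2W)² λ^{2i}/(Q² λ^{i+1}) ≤ (4CW²/Q) λ^i`
(`κ ≥ 1`), and `∑ λ^i ≤ 2`.  Derivative: `T_k'(pt Q k (τ/Q^a)) = ∏_{i<a} Φ'(y_i/Q) · T_{k-a}'(pt Q (k-a) τ)`
(TW1), `‖Φ'(y_i/Q) - κ‖ ≤ C‖y_i‖/Q ≤ 2CWλ^i/Q`, so `∏‖Φ'(y_i/Q)‖ ≥ κ^a ∏(1 - 2CWλ^i/Q) ≥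
κ^a (1 - 4CW/Q) ≥ κ^a/2` for `Q ≥ Q₁` (`∏(1-x_i) ≥ 1 - ∑x_i`).  `C' = 8CW²`.  Hypotheses: hTw1. -/
def StTw3 : Prop := ∀ C : ℝ, 1 ≤ C → ∃ (Q₁ : ℕ) (C' : ℝ), 2 ≤ Q₁ ∧ 0 < C' ∧
  ∀ (κ β : ℝ) (Q : ℕ) (Φ : ℂ → ℂ), Q₁ ≤ Q → TM C κ β Q Φ → ∀ (k a : ℕ) (τ : ℝ), a ≤ k →
    Deep C (TW Φ Q (k - a) (pt Q (k - a) τ)) → 0 ≤ (TW Φ Q (k - a) (pt Q (k - a) τ)).im →
    (TW Φ Q (k - a) (pt Q (k - a) τ)).im < 2 * π →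
    ‖TW Φ Q k (pt Q k (τ / Q ^ a)) - ((κ / Q) ^ a : ℝ) * TW Φ Q (k - a) (pt Q (k - a) τ)‖
        ≤ C' / Q * (κ / Q) ^ a ∧
    κ ^ a * ‖deriv (TW Φ Q (k - a)) (pt Q (k - a) τ)‖ ≤ 2 * ‖deriv (TW Φ Q k) (pt Q k (τ / Q ^ a))‖

end Helper5.SR
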