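import Pool.Agent.Helper5.SR.St2

/-!
# Project SR (MP_d6acc2_an, stage 2, lower half), part 3: attaching a half disc to a univalent function
-/

set_option autoImplicit false

namespace Helper5.SR

open Complex MeasureTheory Set Metric Filter Topology
open scoped Real
open Pool.Agent.Helper60.Rel (LH tc Admissible ClassS)
open Pool.Agent.Helper51.LT

/-! ## Definitions -/

/-- a straightened univalent function: it maps the arc `|t - θ| ≤ δ` of the circle into the line `Re = a` -/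
def Std (f : ℂ → ℂ) (a θ δ κ Λ : ℝ) : Prop :=
  Un f (ball 0 1) ∧ f 0 = 0 ∧ InjOn f (closedBall 0 1) ∧
  (∀ x ∈ closedBall (0 : ℂ) 1, ∀ y ∈ closedBall (0 : ℂ) 1, ‖f x - f y‖ ≤ Λ * ‖x - y‖) ∧
  0 < κ ∧ (∀ x ∈ ball (0 : ℂ) 1, κ ≤ ‖deriv f x‖) ∧ (∀ x ∈ ball (0 : ℂ) 1, (f x).re < a) ∧
  0 < δ ∧ ∀ t : ℝ, |t - θ| ≤ δ → (f (exp (t * I))).re = a

/-- the plane without the two rays `{iy : |y| ≥ 1}` -/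
def Slt (Y : ℂ) : Prop := Y.re ≠ 0 ∨ |Y.im| < 1

/-- the conformal map of the slit plane onto the unit disc, inverse of `q ↦ 2q/(1-q²)` -/
noncomputable def SS (Y : ℂ) : ℂ := Y / (1 + (1 + Y ^ 2) ^ (1 / 2 : ℂ))

/-- the Joukowski map of the right half plane -/
noncomputable def JJ (ε L : ℝ) (W : ℂ) : ℂ := (ε / W - W) / L

/-- the attaching map -/
noncomputable def hh (f : ℂ → ℂ) (θ ε L : ℝ) (x : ℂ) : ℂ := SS (JJ ε L (f (exp (θ * I)) - f x))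

/-! ## Straightening -/

/-- CUT (about 200 lines), cutting off a function with a double zero.  `b : ℝ → [0,1]` smooth, `b = 1` on
`[-1/2, 1/2]`, `b = 0` for `|x| ≥ 1` (`ContDiffBump` with radii `1/2, 1`, or `Real.smoothTransition`);
`b', b'', b'''` are bounded by `B₀` (continuous with compact support).  `u(t) = b((t-θ)/δ) g(t)`.  By the mean
value theorem `|g'(t)| ≤ B|t-θ|`, `|g(t)| ≤ B|t-θ|²`.  For `|t-θ| ≤ δ` (Leibniz):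
`u'' = b'' g/δ² + 2 b' g'/δ + b g''`, `|u''| ≤ 4B₀B`;
`u''' = b''' g/δ³ + 3 b'' g'/δ² + 3 b' g''/δ + b g'''`, `|u'''| ≤ 8B₀B/δ`.  For `|t-θ| > δ` all the derivatives of
`b` at `(t-θ)/δ` vanish (`b` is locally zero).  Hypotheses: none. -/
def StCut : Prop := ∃ C : ℝ, 0 < C ∧ ∀ (g : ℝ → ℝ) (θ B δ : ℝ), ContDiff ℝ 3 g → g θ = 0 →
  deriv g θ = 0 → (∀ t, |deriv (deriv g) t| ≤ B) → (∀ t, |deriv (deriv (deriv g)) t| ≤ B) →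
  0 < δ → δ ≤ 1 → ∃ u : ℝ → ℝ, ContDiff ℝ 3 u ∧ (∀ t, δ ≤ |t - θ| → u t = 0) ∧
    (∀ t, |deriv (deriv u) t| ≤ C * B) ∧ (∀ t, |deriv (deriv (deriv u)) t| ≤ C * B / δ) ∧
    (∀ t, |t - θ| ≤ δ / 2 → u t = g t) ∧ ∀ t, 0 ≤ g t → 0 ≤ u t ∧ u t ≤ g t

/-- FOU (about 250 lines), an analytic function with real part `u` on the circle and small derivative.
`R_k = (1/2π)∫_{θ-π}^{θ+π} u(t) e^{-ikt} dt` (`k ∈ ℤ`).  Integrating by parts twice or three times (`u, u', u''`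
vanish at `θ ± π`): `|R_k| ≤ (1/2π)(1/k²) 2δ A = Aδ/(πk²)` and `|R_k| ≤ (1/2π)(1/|k|³) 2δ A/δ = A/(π|k|³)` for
`k ≠ 0`.  `p(z) = R_0 + 2 ∑_{k≥1} R_k z^k` converges absolutely on the closed disc;
`|p'(z)| ≤ 2∑ k|R_k| ≤ (2Aδ/π) ∑_{k ≤ n₀} 1/k + (2A/π) ∑_{k > n₀} 1/k² ≤ (2Aδ/π)(1 + log(1/δ)) + (2A/π)(1/n₀)`
with `n₀ = ⌊1/δ⌋`, `1/n₀ ≤ 2δ`.  `R_0` is real, `R_{-k} = conj R_k`, so by Fourier inversion for absolutely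
summable coefficients (`has_pointwise_sum_fourier_series_of_summable`, `fourierCoeffOn`,
`fourierCoeffOn_of_hasDerivAt`), `u(t) = ∑_k R_k e^{ikt} = Re p(e^{it})` for `|t-θ| ≤ π`
(the periodic extension of `u` from `[θ-π, θ+π]` is continuous, as `u(θ±π) = 0`).
Hypotheses: none. -/
def StFou : Prop := ∃ C : ℝ, 0 < C ∧ ∀ (u : ℝ → ℝ) (θ δ A : ℝ), ContDiff ℝ 3 u → 0 < δ → δ ≤ 1 →
  (∀ t, δ ≤ |t - θ| → u t = 0) → (∀ t, |deriv (deriv u) t| ≤ A) →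
  (∀ t, |deriv (deriv (deriv u)) t| ≤ A / δ) → ∃ p : ℂ → ℂ,
    DifferentiableOn ℂ p (ball 0 1) ∧ ContinuousOn p (closedBall 0 1) ∧
    (∀ z ∈ ball (0 : ℂ) 1, ‖deriv p z‖ ≤ C * A * δ * (1 + Real.log (1 / δ))) ∧ (p 0).im = 0 ∧
    ∀ t : ℝ, |t - θ| ≤ π → (p (exp (t * I))).re = u t

/-- STR (about 250 lines), straightening.  Let `a₁ = max Re f` on `closedBall 0 1`; it is attained on the circle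
(maximum principle, or: `f(ball 0 1)` is open), at `e^{iθ}`.  `g(t) = a₁ - Re f(e^{it}) ≥ 0` is smooth
and periodic, its second and third derivatives are bounded by some `B`, `g(θ) = 0 = g'(θ)` (minimum).  For
`δ ≤ 1` take `u` from CUT, `p` from FOU (`A = C B`); `|p'| ≤ e := C' δ (1 + log(1/δ)) → 0` as `δ → 0`; `p` is
`e`-Lipschitz on `ball 0 1`, by continuity on `closedBall 0 1`.  `f₀ = f + p - p(0)`.  There is `κ > 0` with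
`|f(z) - f(w)| ≥ 2κ|z-w|` on `closedBall 0 1` (as in the lemma INJ of LT: KOE with `U = ball 0 R` and
`min |f'| > 0`), and `f` is Lipschitz there.  For `e ≤ κ`: `|f₀(z) - f₀(w)| ≥ κ|z-w|` on `closedBall 0 1`, so
`f₀` is injective there and `|f₀'| ≥ κ` on the ball.  On the circle
`Re f₀(e^{it}) = Re f(e^{it}) + u(t) - Re p(0) ≤ a₁ - Re p(0) =: a` (`u ≤ g`), equality for `|t-θ| ≤ δ/2`.
Hence `Re f₀ ≤ a` on `closedBall 0 1` (maximum principle for `exp f₀`), and `<` in the open ball because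
`f₀(ball 0 1)` is open.  `‖f₀ - f‖ ≤ e`, `‖f₀'(0) - f'(0)‖ ≤ e`.  Hypotheses: hKoe hCut hFou. -/
def StStr : Prop := ∀ (f : ℂ → ℂ) (R η : ℝ), 1 < R → Un f (ball 0 R) → f 0 = 0 → 0 < η →
  ∃ (f₀ : ℂ → ℂ) (a θ δ κ Λ : ℝ), Std f₀ a θ δ κ Λ ∧
    (∀ z ∈ ball (0 : ℂ) 1, ‖f₀ z - f z‖ ≤ η) ∧ ‖deriv f₀ 0 - deriv f 0‖ ≤ η

/-! ## The slit plane -/

/-- SSF (about 150 lines).  `s = (1+Y²)^{1/2}` (principal); for `Slt Y` the number `1+Y²` is in the slit plane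
(`Y² ∈ (-∞,-1]` iff `Y = iy`, `|y| ≥ 1`), `s² = 1+Y²`, `Re s > 0`.  `SS = Y/(1+s)`; `1 - SS² = 2/(1+s)`, so
`2 SS = Y(1-SS²)`, and `|Y|² = |s²-1| ≤ 1+|s|² < |1+s|²`, so `|SS| < 1`.  Injective: `Y = 2 SS/(1-SS²)`.
`SS' = 1/(s(1+s))` (`s' = Y/s`).  Let `|y| > 1`, `s₀ = i sgn(y) √(y²-1)`, `ξ = iy/(1+s₀)`: `|ξ|² = y²/(1+y²-1) = 1`,
`s₀² = 1 - y²` gives `2ξ = iy(1-ξ²)` as above.  For `Re Y > 0`, `‖Y - iy‖ ≤ c` small: `Im Y` has the sign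
of `y`, `Im(s²) = 2 Re Y Im Y` too, so `Im s` too; `|s - s₀| |s + s₀| = |Y² + y²| = |Y-iy||Y+iy|` and
`|s + s₀| ≥ |Im s + Im s₀| ≥ √(y²-1)`; so `|s-s₀| ≤ C|Y-iy|`, and `|1+s|, |1+s₀| ≥ 1` give
`|SS Y - ξ| ≤ C|Y-iy|`.  `|SS'| = 1/(|s||1+s|) ≥ c` (`s` is bounded).  Hypotheses: none. -/
def StSsf : Prop :=
  (∀ Y : ℂ, Slt Y → DifferentiableAt ℂ SS Y ∧ deriv SS Y ≠ 0 ∧ ‖SS Y‖ < 1 ∧
    2 * SS Y = Y * (1 - SS Y ^ 2)) ∧ SS 0 = 0 ∧ InjOn SS {Y | Slt Y} ∧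
  ∀ y : ℝ, 1 < |y| → ∃ ξ : ℂ, ‖ξ‖ = 1 ∧ 2 * ξ = y * I * (1 - ξ ^ 2) ∧ ∃ c C : ℝ, 0 < c ∧ 0 < C ∧
    ∀ Y : ℂ, 0 < Y.re → ‖Y - y * I‖ ≤ c → ‖SS Y - ξ‖ ≤ C * ‖Y - y * I‖ ∧ c ≤ ‖deriv SS Y‖

/-- HBU (about 100 lines).  `W = f(e^{iθ}) - f(x)` has `Re W = a - Re f(x) > 0` (`t = θ` in the last clause of
`Std`).  `Y = JJ ε L W`: `L Re Y = Re W (ε/|W|² - 1)`, `L Im Y = -Im W (ε/|W|² + 1)`.  If `Re Y = 0` then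
`|W|² = ε`, `|Im Y| ≤ 2√ε/L < 1`: so `Slt Y`.  Injective: `ε/W - W = ε/W' - W'` gives
`(W'-W)(ε/(WW') + 1) = 0`, and `WW' = -ε` is impossible: `W' = -ε/W` would have negative real part.
`hh` is the composition of injective analytic maps, `‖hh‖ < 1`; `deriv hh x ≠ 0` by the chain rule
(or since it is injective).  The last claim (for all self maps): Schwarz-Pick,
`|h(x)| ≤ (|h(0)| + |x|)/(1 + |h(0)||x|)`, `|h(0)| < 1`.  Hypotheses: hSsf. -/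
def StHbu : Prop := ∀ (f : ℂ → ℂ) (a θ δ κ Λ ε L : ℝ), Std f a θ δ κ Λ → 0 < ε → 2 * √ε < L →
  BU (hh f θ ε L) ∧ deriv (hh f θ ε L) 0 ≠ 0 ∧
  (∀ x ∈ ball (0 : ℂ) 1, Slt (JJ ε L (f (exp (θ * I)) - f x))) ∧
  ∃ c : ℝ, 0 < c ∧ ∀ x ∈ ball (0 : ℂ) 1, c * (1 - ‖x‖) ≤ 1 - ‖hh f θ ε L x‖

/-- ATB (about 250 lines), boundary behaviour.  `w = f(e^{iθ})`, `W(x) = w - f(x)`.  Choose `δ' ≤ min(δ, 1)`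
with `(Λ+1) δ' ≤ √ε/2` and `(Λ+1) δ' L < ε`.  For `t ∈ (θ, θ+δ')`: `W(e^{it}) = i v(t)` with `v(t)` real
(both real parts are `a`), `v(t) ≠ 0` (injective on the closed disc), `|v(t)| ≤ Λ δ'`.  `JJ(iv) = iy`,
`y = -(ε/v + v)/L`, `|y| ≥ ε/(|v|L) > 1`.  Let `ξ(t)` be the `ξ` of SSF for `y`.  For `x ∈ 𝔻` near `e^{it}`:
`‖W(x) - iv‖ ≤ Λ‖x - e^{it}‖`, so `|W|² < ε` and `|W| ≥ |v|/2`, `Re W > 0`, hence `Y = JJ W` has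
`Re Y = Re W(ε/|W|² - 1)/L > 0`, `‖Y - iy‖ = ‖W - iv‖ ‖1 + ε/(W iv)‖/L ≤ C‖x - e^{it}‖`, and SSF gives the first
bound; `‖hh'(x)‖ = ‖SS'(Y)‖ ‖ε/W² + 1‖/L ‖f'(x)‖ ≥ c` (`|ε/W²| ≥ 2` for `|W|² ≤ ε/2`).  Injective: `ξ(t) = ξ(t')` gives
`y = y'` (`ξ² ≠ 1`), so `(v - v')(1 - ε/(vv')) = 0`, `|vv'| < ε`, `v = v'`, `f(e^{it}) = f(e^{it'})`, `t = t'`.
Hypotheses: hSsf. -/
def StAtb : Prop := ∀ (f : ℂ → ℂ) (a θ δ κ Λ ε L : ℝ), Std f a θ δ κ Λ → 0 < ε → 2 * √ε < L →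
  ∃ δ' : ℝ, 0 < δ' ∧ δ' ≤ 1 ∧ ∃ ξ : ℝ → ℂ, InjOn ξ (Ioo θ (θ + δ')) ∧ ∀ t ∈ Ioo θ (θ + δ'),
    ‖ξ t‖ = 1 ∧ ∃ c C : ℝ, 0 < c ∧ 0 < C ∧ ∀ x ∈ ball (0 : ℂ) 1, ‖x - exp (t * I)‖ ≤ c →
      ‖hh f θ ε L x - ξ t‖ ≤ C * ‖x - exp (t * I)‖ ∧ c ≤ ‖deriv (hh f θ ε L) x‖

/-- ATC (about 250 lines), closeness.  `G = K ∘ SS` is univalent on `ball 0 1` (SSF; `‖Y‖ < 1` implies `Slt Y`).
`y(z) = ε/W(z) - W(z)`, `W(z) = w - f(z)`, `Y = y/L`.  On `‖z‖ ≤ r`: `|W| ≥ ρ₁ > 0` (`Re W > 0`, compactness),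
`|W| ≤ 2Λ`.  For `L ≥ 8(ε/ρ₁ + 2Λ)`: `|Y| ≤ 1/8`.  Taylor: for `|Y|, |Y₀| ≤ 1/8`
`‖G(Y) - G(Y₀) - G'(Y₀)(Y-Y₀)‖ ≤ C₀‖G'(Y₀)‖‖Y-Y₀‖²` with a universal `C₀`: on the segment
`‖G''(y)‖ ≤ 8‖G'(y)‖` (D1 with `d = 1/2`) and `‖G'(y)‖ ≤ 16‖G'(Y₀)‖` (D3, `d = 1/2`).
`K'(hh 0) hh'(0) = (G ∘ Y)'(0) = G'(Y₀) y'(0)/L`, `Y₀ = Y(0)`.  So
`(K(hh z) - K(hh 0))/(K'(hh 0)hh'(0)) = (y(z)-y(0))/y'(0) + E`, `|E| ≤ C₀|y(z)-y(0)|²/(L|y'(0)|)`, tends to `0`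
as `L → ∞`.  `y(z) - y(0) = f(z) + ε(1/W(z) - 1/W(0))` (`f(0) = 0`), `y'(0) = f'(0)(1 + ε/W(0)²)`; so
`f'(0)(y(z)-y(0))/y'(0) → f(z)` uniformly on `‖z‖ ≤ r` as `ε → 0`; `ε₀` small gives an error `≤ η/2`, then
`L₀` (depending on `ε`) gives the other half.  Hypotheses: hD1 hD3 hSsf. -/
def StAtc : Prop := ∀ (f : ℂ → ℂ) (a θ δ κ Λ : ℝ), Std f a θ δ κ Λ → ∀ r η : ℝ, 0 ≤ r → r < 1 →
  0 < η → ∃ ε₀ : ℝ, 0 < ε₀ ∧ ∀ ε : ℝ, 0 < ε → ε ≤ ε₀ → ∃ L₀ : ℝ, ∀ L : ℝ, L₀ ≤ L → 2 * √ε < L →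
    ∀ K : ℂ → ℂ, Un K (ball 0 1) → ∀ z : ℂ, ‖z‖ ≤ r →
      ‖(K (hh f θ ε L z) - K (hh f θ ε L 0)) *
        (deriv f 0 / (deriv K (hh f θ ε L 0) * deriv (hh f θ ε L) 0)) - f z‖ ≤ η

/-- data of an attaching map: `M` and angles `θ l ∈ (2π/M)ℤ` -/
def Att {m : ℕ} (M : ℕ) (h : ℂ → ℂ) (θ : Fin (m + 1) → ℝ) (ξ : Fin (m + 1) → ℂ) (c C : ℝ) : Prop :=
  1 ≤ M ∧ BU h ∧ deriv h 0 ≠ 0 ∧ 0 < c ∧ 0 < C ∧ Function.Injective (fun l => exp (θ l * I)) ∧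
  Function.Injective ξ ∧ (∀ l, ‖ξ l‖ = 1) ∧ (∀ l, ∃ n : ℤ, (M : ℝ) * θ l = 2 * π * n) ∧
  (∀ l, ∀ x ∈ ball (0 : ℂ) 1, ‖x - exp (θ l * I)‖ ≤ c →
    ‖h x - ξ l‖ ≤ C * ‖x - exp (θ l * I)‖ ∧ c ≤ ‖deriv h x‖) ∧
  ∀ x ∈ ball (0 : ℂ) 1, c * (1 - ‖x‖) ≤ 1 - ‖h x‖

/-- ATT (about 200 lines), assembly.  `|f'(0)| > 0`.  STR with a small `η₁` gives `f₀`; `lam = f'(0)/f₀'(0)`,
`|lam - 1| ≤ 2η₁/|f'(0)|`.  ATC for `f₀` with `η₁` gives `ε`, then `L` (`L ≥ L₀`, `L > 2√ε`); `h = hh f₀ θ ε L`,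
BU etc. by HBU; `(K(h z) - K(h 0))(f'(0)/(…)) = lam X`, `X` the expression with `f₀'(0)`, `‖X - f₀ z‖ ≤ η₁`,
`‖lam X - f z‖ ≤ |lam|‖X - f₀ z‖ + |lam-1|‖f₀ z‖ + ‖f₀ z - f z‖ ≤ η` for small `η₁` (`‖f₀ z‖ ≤ ‖f z‖ + 1`, `f` is bounded on
the closed disc).  ATB gives `δ', ξ`; take `M ≥ M₀` with `M δ' > 2π(m+2)`, `j₀ = ⌊Mθ/2π⌋ + 1` and
`θ_l = 2π(j₀+l)/M ∈ (θ, θ+δ')`, `ξ_l = ξ(θ_l)`; the `e^{iθ_l}` are distinct (`δ' ≤ 1`).  `c` is the minimum and `C` the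
maximum of the constants.  Hypotheses: hStr hHbu hAtb hAtc. -/
def StAtt : Prop := ∀ (m : ℕ) (f : ℂ → ℂ) (R : ℝ), 1 < R → Un f (ball 0 R) → f 0 = 0 →
  ∀ η r : ℝ, 0 < η → 0 ≤ r → r < 1 → ∀ M₀ : ℕ, ∃ (M : ℕ) (h : ℂ → ℂ) (θ : Fin (m + 1) → ℝ)
    (ξ : Fin (m + 1) → ℂ) (c C : ℝ), M₀ ≤ M ∧ Att M h θ ξ c C ∧
    ∀ K : ℂ → ℂ, Un K (ball 0 1) → ∀ z : ℂ, ‖z‖ ≤ r →
      ‖(K (h z) - K (h 0)) * (deriv f 0 / (deriv K (h 0) * deriv h 0)) - f z‖ ≤ η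

end Helper5.SR
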