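import Pool.Agent.Helper5.SR.St3
import Pool.Agent.Helper51.LT.M_FIN

/-!
# Project SR (MP_d6acc2_an, stage 2, lower half), part 4: zone mass, window, final assembly
-/

set_option autoImplicit false

namespace Helper5.SR

open Complex MeasureTheory Set Metric Filter Topology
open scoped Real
open Pool.Agent.Helper60.Rel (LH tc Admissible ClassS)
open Pool.Agent.Helper51.LT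

/-! ## Definitions -/

/-- one atom of an attaching map -/
def Atm (M : ℕ) (h : ℂ → ℂ) (θ₀ : ℝ) (ξ₀ : ℂ) (c C : ℝ) : Prop :=
  1 ≤ M ∧ BU h ∧ (∃ n : ℤ, (M : ℝ) * θ₀ = 2 * π * n) ∧ ‖ξ₀‖ = 1 ∧ 0 < c ∧ 0 < C ∧
  (∀ x ∈ ball (0 : ℂ) 1, ‖x - exp (θ₀ * I)‖ ≤ c →
    ‖h x - ξ₀‖ ≤ C * ‖x - exp (θ₀ * I)‖ ∧ c ≤ ‖deriv h x‖) ∧
  ∀ x ∈ ball (0 : ℂ) 1, c * (1 - ‖x‖) ≤ 1 - ‖h x‖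

/-- `φ` is the disc function of the tower with `k` levels, `M`-fold -/
def Dsc (Φ : ℂ → ℂ) (Q k M : ℕ) (φ : ℂ → ℂ) : Prop :=
  BU φ ∧ φ 0 = 0 ∧ (∀ z ∈ ball (0 : ℂ) 1, ‖φ z‖ ≤ ‖z‖) ∧
  ∀ ζ ∈ LH, φ (exp ζ) = exp (TW Φ Q k (M * ζ) / M)

/-- `F` is close to `f` and has mass `N^v` in the arcs of radius `N^(-s₀)` around the angles `θ l`, on the
circle of radius `exp (-1/(NM))` -/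
def Mass {m : ℕ} (f : ℂ → ℂ) (θ : Fin (m + 1) → ℝ) (M : ℕ) (N v s₀ η r : ℝ) (F : ℂ → ℂ) : Prop :=
  Un F (ball 0 1) ∧ F 0 = 0 ∧ ‖deriv F 0‖ ≤ ‖deriv f 0‖ ∧ (∀ z : ℂ, ‖z‖ ≤ r → ‖F z - f z‖ ≤ η) ∧
  ∀ l, N ^ v ≤ ∫ ω in (θ l - N ^ (-s₀))..(θ l + N ^ (-s₀)),
    ‖deriv F (exp (-((N⁻¹ / M : ℝ) : ℂ) + ω * I))‖

/-- the class for the gliding hump -/
def PP2 (f : ℂ → ℂ) : Prop := (∃ R : ℝ, 1 < R ∧ Un f (ball 0 R)) ∧ f 0 = 0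

/-- the event: at some `n` no combination of sup norm one of the coefficients is small in the window -/
def QW (m : ℕ) (α : ℝ) (j : ℕ) (F : ℂ → ℂ) : Prop :=
  ∃ n : ℕ, j ≤ n ∧ 1 ≤ n ∧ ∀ c : Fin (m + 1) → ℂ, (∀ k, ‖c k‖ ≤ 1) → (∃ k, ‖c k‖ = 1) →
    ∃ i ≤ m, (j : ℝ) * (n : ℝ) ^ α < ‖∑ k, c k * tc F (n + i + k)‖

/-! ## The zones -/

/-- CLT (about 120 lines).  `P(ζ) = T(Mζ)/M` is analytic and injective on `LH`, `Re P ≤ Re ζ`, and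
`T(Mζ + 2πiM) = T(Mζ) + 2πiM` (`M` times the period), so LD gives `φ`.  Closeness: `z ≠ 0`, `z = exp ζ`,
`ζ = log z`, `Re (Mζ) ≤ -M log(1/r) ≤ -1`, so `δ = (T(Mζ) - Mζ)/M` has `‖δ‖ ≤ C/M ≤ 1` and
`‖exp(ζ+δ) - exp ζ‖ = ‖z‖‖exp δ - 1‖ ≤ 2C/M`; `z = 0` is trivial.  Hypotheses: hLD. -/
def StClt : Prop := ∀ (C : ℝ) (T : ℂ → ℂ) (M : ℕ), 1 ≤ M → 0 ≤ C → C ≤ M → LC C T → ∃ φ : ℂ → ℂ,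
  BU φ ∧ φ 0 = 0 ∧ (∀ z ∈ ball (0 : ℂ) 1, ‖φ z‖ ≤ ‖z‖) ∧
  (∀ ζ ∈ LH, φ (exp ζ) = exp (T (M * ζ) / M)) ∧
  ∀ r : ℝ, 0 < r → r < 1 → 1 ≤ M * Real.log (1 / r) → ∀ z : ℂ, ‖z‖ ≤ r → ‖φ z - z‖ ≤ 2 * C / M

/-- ZPT (about 300 lines), lower bound of the derivative at a point of a zone.  `a = ⌊s k⌋`, `lam = κ/Q ≤ 1/2`,
`u = lam^a`, `t = Q^{-sk}`, `w = TW Φ Q (k-a) (pt Q (k-a) τ)`.  Let `ζ = -Q^{-k}/M + i(θ₀ + τ/(M Q^a))`;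
`Mζ = pt Q k (τ/Q^a) + 2πi n`, so by periodicity (TW1) and TW3
`TW Φ Q k (Mζ) = u(w + e) + 2πi n`, `‖e‖ ≤ C'/Q ≤ 1/(2C)` (choose `Q₁ ≥ 2CC'`), and
`x = φ(exp ζ) = e^{iθ₀} exp(u(w+e)/M)` (`2πn/M = θ₀`).  `-(C+1) ≤ Re(w+e) ≤ -1/(2C)`, `‖w+e‖ ≤ C+8`.
As `s > 0`, `u ≤ 2^{-a} → 0` for `k → ∞`; for `k ≥ k₀`: `2u(C+8) ≤ min(c₀, 1/2)`.  Then
`‖x - e^{iθ₀}‖ ≤ 2u(C+8)` (`‖exp y - 1‖ ≤ 2‖y‖`), `1 - ‖x‖ ≥ 1 - exp(-u/(2CM)) ≥ u/(4CM)`, `‖x‖ ≥ 1/2`.  So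
`‖h x - ξ₀‖ ≤ 2C₀(C+8)u`, `1 - ‖h x‖ ≥ c₀u/(4CM)`, `‖h'(x)‖ ≥ c₀`.  HYP for the points `h x` and `(1-u)ξ₀`:
`‖K'((1-u)ξ₀)‖ ≤ C₂‖K'(h x)‖`.  `t ≤ u` (`a ≤ sk`, `κ ≥ 1`), `t < 1`; D2 with `R = 1`, `z = (1-t)ξ₀` and the factor
`(1-u)/(1-t)`: `t⁴‖K'((1-t)ξ₀)‖ ≤ u⁴‖K'((1-u)ξ₀)‖`, and `u/t ≤ κ^a Q ≤ C^k Q`.  Differentiating
`φ(exp ζ) = exp(TW(Mζ)/M)`: `φ'(z) z = x TW'(Mζ)`, `z = exp ζ`, `‖z‖ ≤ 1`, so (TW3)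
`‖φ'(z)‖ ≥ (1/2)‖TW'(pt Q k (τ/Q^a))‖ ≥ (1/4)κ^a‖TW_{k-a}'(pt Q (k-a) τ)‖`.  Chain rule:
`‖(K∘h∘φ)'(z)‖ ≥ (1/C₂)(C^kQ)^{-4}‖K'((1-t)ξ₀)‖ c₀ (1/4)‖TW_{k-a}'‖`, and `1 ≥ Q^a t`; `c = c₀ Q^{-4}/(4C₂)`.
Hypotheses: hTw1 hTw3 hHyp hD2. -/
def StZpt : Prop := ∀ C : ℝ, 1 ≤ C → ∃ Q₁ : ℕ, 2 ≤ Q₁ ∧ ∀ (κ β : ℝ) (Q : ℕ) (Φ : ℂ → ℂ), Q₁ ≤ Q →
  TM C κ β Q Φ → ∀ (M : ℕ) (h : ℂ → ℂ) (θ₀ : ℝ) (ξ₀ : ℂ) (c₀ C₀ s : ℝ), Atm M h θ₀ ξ₀ c₀ C₀ →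
  0 < s → s ≤ 1 → ∃ (c : ℝ) (k₀ : ℕ), 0 < c ∧ ∀ k : ℕ, k₀ ≤ k → ∀ K φ : ℂ → ℂ, Un K (ball 0 1) →
    Dsc Φ Q k M φ → ∀ τ : ℝ, Deep C (TW Φ Q (k - ⌊s * k⌋₊) (pt Q (k - ⌊s * k⌋₊) τ)) →
      0 ≤ (TW Φ Q (k - ⌊s * k⌋₊) (pt Q (k - ⌊s * k⌋₊) τ)).im →
      (TW Φ Q (k - ⌊s * k⌋₊) (pt Q (k - ⌊s * k⌋₊) τ)).im < 2 * π →
      c * ((C ^ k) ^ 4)⁻¹ * (Q : ℝ) ^ ⌊s * k⌋₊ *
        (‖deriv K (((1 - ((Q : ℝ) ^ k) ^ (-s) : ℝ) : ℂ) * ξ₀)‖ * ((Q : ℝ) ^ k) ^ (-s)) *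
        ‖deriv (TW Φ Q (k - ⌊s * k⌋₊)) (pt Q (k - ⌊s * k⌋₊) τ)‖ ≤
      ‖deriv (fun z => K (h (φ z)))
        (exp (-(((((Q : ℝ) ^ k)⁻¹) / M : ℝ) : ℂ) + ((θ₀ + τ / (M * (Q : ℝ) ^ ⌊s * k⌋₊) : ℝ) : ℂ) * I))‖

/-- ZON (about 150 lines), zone mass.  `N = Q^k`, `a = ⌊sk⌋`, `D = 2C + 20 + 30(k-a) log Q`,
`ρ_a = D/(M Q^a) ≤ N^{-s/2}` for `k ≥ k₀` (`Q^a ≥ Q^{sk-1}`).  The integrand is nonnegative and continuous;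
restrict to `|ω - θ₀| ≤ ρ_a`, substitute `ω = θ₀ + τ/(MQ^a)`, use ZPT where the three conditions hold and
TW4 with `k-a` levels: `≥ (1/(MQ^a)) c (C^k)^{-4} Q^a X 2π (Q^β)^{k-a}`, `X = ‖K'((1-t)ξ₀)‖t`.  Finally
`(Q^β)^{k-a} ≥ Q^{-|β|} N^{β(1-s)}`, because `|(k-a) - k(1-s)| ≤ 1`.  Hypotheses: hZpt hTw1 hTw4. -/
def StZon : Prop := ∀ C : ℝ, 1 ≤ C → ∃ Q₁ : ℕ, 2 ≤ Q₁ ∧ ∀ (κ β : ℝ) (Q : ℕ) (Φ : ℂ → ℂ), Q₁ ≤ Q →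
  TM C κ β Q Φ → ∀ (M : ℕ) (h : ℂ → ℂ) (θ₀ : ℝ) (ξ₀ : ℂ) (c₀ C₀ s : ℝ), Atm M h θ₀ ξ₀ c₀ C₀ →
  0 < s → s ≤ 1 → ∃ (c : ℝ) (k₀ : ℕ), 0 < c ∧ ∀ k : ℕ, k₀ ≤ k → ∀ K φ : ℂ → ℂ, Un K (ball 0 1) →
    Dsc Φ Q k M φ →
    c * ((C ^ k) ^ 4)⁻¹ *
      (‖deriv K (((1 - ((Q : ℝ) ^ k) ^ (-s) : ℝ) : ℂ) * ξ₀)‖ * ((Q : ℝ) ^ k) ^ (-s)) *
      ((Q : ℝ) ^ k) ^ (β * (1 - s)) ≤
    ∫ ω in (θ₀ - ((Q : ℝ) ^ k) ^ (-(s / 2)))..(θ₀ + ((Q : ℝ) ^ k) ^ (-(s / 2))),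
      ‖deriv (fun z => K (h (φ z))) (exp (-(((((Q : ℝ) ^ k)⁻¹) / M : ℝ) : ℂ) + ω * I))‖

/-- FDF (about 200 lines), the function `F = A(K∘h∘φ - K(h 0))`, `A = f'(0)/(K'(h 0) h'(0))`.  `Λ` a Lipschitz
constant of `f` on `closedBall 0 1`, `r' = max r (1/2)`, `M₀ ≥ 2C`, `1 ≤ M₀ log(1/r')`, `4CΛ/M₀ ≤ η/2`.  All of
`f'(0), K'(h 0), h'(0)` are nonzero, `h` maps the disc into the open disc (last clause of `Att`).  `F` is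
univalent, `F(0) = 0`, `‖F'(0)‖ = ‖f'(0)‖‖φ'(0)‖ ≤ ‖f'(0)‖` (`‖φ z‖ ≤ ‖z‖`).  For `‖z‖ ≤ r`: `‖φ z‖ ≤ r`, so
`‖F z - f(φ z)‖ ≤ η/2`, `‖f(φ z) - f z‖ ≤ Λ 4C/M ≤ η/2`.  `‖F'‖ = ‖A‖‖(K∘h∘φ)'‖`, and by D2 (`t = 0`, `R = 1`)
`‖K'(h 0)‖ ≤ ‖K'(0)‖(1-‖h 0‖)^{-4} ≤ (1-‖h 0‖)^{-4}`, so `‖A‖ ≥ c₁ = ‖f'(0)‖(1-‖h 0‖)⁴/‖h'(0)‖`.
Hypotheses: hD2. -/
def StFdf : Prop := ∀ (f : ℂ → ℂ) (R : ℝ), 1 < R → Un f (ball 0 R) → f 0 = 0 → ∀ η r C : ℝ, 0 < η →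
  0 ≤ r → r < 1 → 1 ≤ C → ∃ M₀ : ℕ, 2 * C ≤ M₀ ∧ ∀ (m M : ℕ) (h : ℂ → ℂ) (θ : Fin (m + 1) → ℝ)
    (ξ : Fin (m + 1) → ℂ) (c C₀ : ℝ), M₀ ≤ M → Att M h θ ξ c C₀ →
    (∀ K : ℂ → ℂ, Un K (ball 0 1) → ∀ z : ℂ, ‖z‖ ≤ r →
      ‖(K (h z) - K (h 0)) * (deriv f 0 / (deriv K (h 0) * deriv h 0)) - f z‖ ≤ η / 2) →
    ∃ c₁ : ℝ, 0 < c₁ ∧ ∀ K φ : ℂ → ℂ, Un K (ball 0 1) → ‖deriv K 0‖ ≤ 1 → BU φ → φ 0 = 0 →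
      (∀ z ∈ ball (0 : ℂ) 1, ‖φ z‖ ≤ ‖z‖) →
      (∀ r : ℝ, 0 < r → r < 1 → 1 ≤ M * Real.log (1 / r) → ∀ z : ℂ, ‖z‖ ≤ r →
        ‖φ z - z‖ ≤ 4 * C / M) →
      ∃ F : ℂ → ℂ, Un F (ball 0 1) ∧ F 0 = 0 ∧ ‖deriv F 0‖ ≤ ‖deriv f 0‖ ∧
        (∀ z : ℂ, ‖z‖ ≤ r → ‖F z - f z‖ ≤ η) ∧
        ∀ z ∈ ball (0 : ℂ) 1, c₁ * ‖deriv (fun z => K (h (φ z))) z‖ ≤ ‖deriv F z‖

/-- MAS (about 250 lines), the choice of parameters.  NUM gives a profile `(ρ, α, p, act)` with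
`g + (2/j-g) qr^(m+1-j) ≤ AA l + g(1 - ss l)`.  `C` from TF; `β < g`, `β ≥ g - ε/8`, `Sup β`; `Q ≥ Q₁` (ZON) with
`4 log C ≤ (ε/4) log Q`, `κ, Φ` from TF.  `M₀` from FDF for `f, η, r, C`; ATT with `η/2`, `r`, `M₀`: `M, h, θ, ξ, c, C₀`;
FDF gives `c₁`; HK for `ξ` and the profile gives `c_K`; ZON for each `l` with `s = ss l`: `c_l, k_l`.
`s₀ = min_l ss l/2`.  For large `k`: `N = Q^k`, `K` from HK, `φ` from CLT applied to `T = TW Φ Q k`, `LC (2C) T` (TW1),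
`F` from FDF.  Mass at `l` (enlarge the interval to radius `N^{-s₀}`; `F'` is continuous on the circle):
`≥ c₁ c_l (C^k)^{-4} c_K N^{AA l} N^{β(1-ss l)} ≥ c N^{-ε/4} N^{v - ε/8}`, `v = g + (2/j-g)qr^(m+1-j)`
(`(C^k)^4 = N^{4 log C/log Q} ≤ N^{ε/4}`; `β(1-ss) ≥ g(1-ss) - ε/8`), and `c N^{v-3ε/8} ≥ N^{v-ε}` for `k` large.
Hypotheses: hNum hTf hTw1 hClt hAtt hHK hZon hFdf. -/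
def StMas : Prop := ∀ (m j : ℕ) (g : ℝ), 1 ≤ m → 1 ≤ j → j ≤ m + 1 → 0 ≤ g → g ≤ 1 / 2 →
  (2 * (j : ℝ) - 1) * g ≤ 2 → (j = m + 1 ∨ 2 ≤ (2 * (j : ℝ) + 1) * g) → (∀ β : ℝ, β < g → Sup β) →
  ∀ ε : ℝ, 0 < ε → ∀ (f : ℂ → ℂ) (R : ℝ), 1 < R → Un f (ball 0 R) → f 0 = 0 → ∀ η r : ℝ, 0 < η →
  0 ≤ r → r < 1 → ∃ (M : ℕ) (θ : Fin (m + 1) → ℝ) (s₀ : ℝ), 1 ≤ M ∧ 0 < s₀ ∧
    Function.Injective (fun l => exp (θ l * I)) ∧ ∀ N₀ : ℝ, ∃ (N : ℝ) (F : ℂ → ℂ), N₀ ≤ N ∧ 1 ≤ N ∧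
      Mass f θ M N (g + (2 / j - g) * qr g ^ (m + 1 - j) - ε) s₀ η r F

/-! ## The window -/

/-- LOX (about 200 lines), localization by a power of the cosine.  `G₀ = ∫ g cos^{2q}`.  `Re Y 0 ≥ (3/4) G₀`, and
`cos^{2q}(x/2) ≥ (1 - x²/8)^{2q} ≥ 1 - qx²/4 ≥ 3/4` for `|x| ≤ ρ`, so `‖Y 0‖ ≥ (9/16) μ`.
`‖Y i - e^{-iiθ} Y 0‖ ≤ (5/4) ∫ g cos^{2q} i|t-θ|`.  Let `s₁ = ε₁/(8(m+1))`.  The part `|t-θ| ≤ s₁` is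
`≤ (5/4) 2m s₁ G₀ ≤ (ε₁/2)‖Y 0‖` (`G₀ ≤ (4/3)‖Y 0‖`).  For `s₁ ≤ |t-θ| ≤ π`: `cos^{2q}((t-θ)/2) ≤ e^{-q s₁²/4}`
(`cos x ≤ e^{-x²/2}` for `|x| ≤ π/2`, `Real.cos_le_one_sub_mul_cos_sq`… or `cos x ≤ 1 - 2x²/π²`, which gives another
constant in the exponent, also fine), so this part is `≤ (5/4) S e^{-q s₁²/4} 2m π 2π ≤ (ε₁/4) μ` if
`q s₁²/4 ≥ log(200(m+1)S/(ε₁ μ))`, which follows from the assumption on `q` for a large `C₇`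
(`S/μ ≥ 1/2` since `μ ≤ 2ρS`, so `1 + log(S/μ) ≥ 3/10`).  Hypotheses: none. -/
def StLox : Prop := ∀ (m : ℕ) (ε₁ : ℝ), 0 < ε₁ → ∃ C₇ : ℝ, 1 ≤ C₇ ∧ ∀ (g : ℝ → ℝ) (φ : ℝ → ℂ)
  (θ ρ μ S : ℝ) (q : ℕ), Continuous g → Continuous φ → (∀ t, 0 ≤ g t ∧ g t ≤ S) →
  (∀ t, ‖φ t - g t‖ ≤ 1 / 4 * g t) → 0 < μ → 0 < ρ → ρ ≤ 1 → q * ρ ^ 2 ≤ 1 →
  μ ≤ ∫ t in (θ - ρ)..(θ + ρ), g t → C₇ * (1 + Real.log (S / μ)) ≤ q →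
  μ / 2 ≤ ‖∫ t in (θ - π)..(θ + π), φ t * (Real.cos ((t - θ) / 2) ^ (2 * q) : ℝ)‖ ∧
  ∀ i : ℕ, i ≤ 2 * m →
    ‖(∫ t in (θ - π)..(θ + π), φ t * (Real.cos ((t - θ) / 2) ^ (2 * q) : ℝ) * exp (-(i * t * I)))
      - exp (-(i * θ * I)) * ∫ t in (θ - π)..(θ + π), φ t * (Real.cos ((t - θ) / 2) ^ (2 * q) : ℝ)‖
    ≤ ε₁ * ‖∫ t in (θ - π)..(θ + π), φ t * (Real.cos ((t - θ) / 2) ^ (2 * q) : ℝ)‖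

/-- COE (about 150 lines), the coefficients.  Let `T = M + L + q + 1 + i`; `deriv u` is analytic on
`ball 0 (1+d)` (given by the formula) and `T tc u T = tc (deriv u) (T-1)` (TCD), which by TCF with `r = 1` is
`(2π)⁻¹ ∫_0^{2π} u'(e^{it}) e^{-i(T-1)t} dt`.  On `z = e^{it}`:
`((1 + e^{-iθ}z)/2)^{2q} = (e^{i(t-θ)/2} cos((t-θ)/2))^{2q} = z^q e^{-iqθ} cos^{2q}((t-θ)/2)`, and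
`z^M z^q z^{-(T-1)} = z^{-L} z^{-i}`.  Each summand is `2π`-periodic in `t`; shift the interval of
integration to `[θ_l - π, θ_l + π]` (`Function.Periodic.intervalIntegral_add_eq`).  Hypotheses: hTcf hTcd. -/
def StCoe : Prop := ∀ (m : ℕ) (d : ℝ) (G u : ℂ → ℂ) (p : Polynomial ℂ) (M L q : ℕ)
  (θ : Fin (m + 1) → ℝ) (e : Fin (m + 1) → ℂ) (J : Finset (Fin (m + 1))), 0 < d →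
  DifferentiableOn ℂ G (ball 0 (1 + d)) →
  (∀ z ∈ ball (0 : ℂ) (1 + d), HasDerivAt u (1 / 2000 * deriv G z * z ^ M * (p.eval z *
    ((m + 1 : ℂ)⁻¹ * ∑ l ∈ J, e l * ((1 + exp (-(θ l * I)) * z) / 2) ^ (2 * q)))) z) →
  ∀ i : ℕ, ((M + L + q + 1 + i : ℕ) : ℂ) * tc u (M + L + q + 1 + i) =
    1 / 2000 * (m + 1 : ℂ)⁻¹ * (2 * π : ℂ)⁻¹ * ∑ l ∈ J, e l * (exp (-(q * θ l * I)) *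
      ∫ t in (θ l - π)..(θ l + π),
        (deriv G (exp (t * I)) * p.eval (exp (t * I)) * (exp (t * I) ^ L)⁻¹) *
          (Real.cos ((t - θ l) / 2) ^ (2 * q) : ℝ) * exp (-(i * t * I)))

/-- WIN (about 250 lines), the window.  HAN for the points `exp(-iθ_l)` gives `c₀, ε₀`; `C₇` from LOX with
`ε₁ = ε₀/4` (`≤ 1`).  `p` from POL (symmetry `N = 1` is trivial).  `φ(t) = G'(e^{it}) p(e^{it}) e^{-iLt}`,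
`g(t) = ‖G'(e^{it})‖`.  `X_{l,i} = e^{-iqθ_l} ∫ φ cos^{2q}((t-θ_l)/2) e^{-iit} dt`, so `‖X_{l,0}‖ ≥ μ/2` and
`‖X_{l,i} - e^{-iiθ_l}X_{l,0}‖ ≤ ε₁‖X_{l,0}‖`.  `μ₁ = min_l ‖X_{l,0}‖`, `e_l = μ₁/X_{l,0}` (`‖e_l‖ ≤ 1`),
`n = M+L+q+1`, `v_l(i) = (1/2000)(m+1)⁻¹(2π)⁻¹ e_l X_{l,i}/(n+i)`, `t = (1/2000)(m+1)⁻¹(2π)⁻¹ μ₁/n`.
`‖v_l(i) - t e^{-iiθ_l}‖ ≤ t(ε₁ + 2·2m/n) ≤ ε₀ t` for `i ≤ 2m`, `n ≥ n₀`.  HAN with `a(i) = tc G (n+i)` gives `J`; let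
`u` be the primitive (`u 0 = 0`) of `(1/2000)G' z^M P`, `P = p (m+1)⁻¹ ∑_{l∈J} e_l ((1+e^{-iθ_l}z)/2)^{2q}`, on
`ball 0 (1+d)`; by COE `tc (G+u) (n+i) = a(i) + ∑_{l∈J} v_l(i)`.  So the window bound is `c₀ t ≥ c₁ μ/n`.
`‖P‖ ≤ 5/4` on the closed disc, so CJU gives injectivity and the smallness.
Hypotheses: hHan hLox hCoe hPol hCJU. -/
def StWin : Prop := ∀ (m : ℕ) (θ : Fin (m + 1) → ℝ), Function.Injective (fun l => exp (θ l * I)) →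
  ∃ (c₁ C₇ : ℝ) (n₀ : ℕ), 0 < c₁ ∧ 1 ≤ C₇ ∧ ∀ (d : ℝ) (G : ℂ → ℂ) (L M q : ℕ) (ρ μ S : ℝ), 0 < d →
  d ≤ 1 → Un G (ball 0 (1 + d)) → (∀ z : ℂ, ‖z‖ = 1 → ‖deriv G z‖ ≤ S) → 0 < μ → 0 < ρ → ρ ≤ 1 →
  q * ρ ^ 2 ≤ 1 → C₇ * (1 + Real.log (S / μ)) ≤ q →
  (∀ l, μ ≤ ∫ t in (θ l - ρ)..(θ l + ρ), ‖deriv G (exp (t * I))‖) →
  100 / d * (1 + Real.log (1 / d)) ≤ L → 1 ≤ (M : ℝ) * d → n₀ ≤ M →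
  ∃ u : ℂ → ℂ, DifferentiableOn ℂ u (ball 0 (1 + d)) ∧ u 0 = 0 ∧
    InjOn (fun z => G z + u z) (closedBall 0 1) ∧
    (∀ r S' : ℝ, 0 ≤ r → r < 1 → (∀ z : ℂ, ‖z‖ ≤ r → ‖deriv G z‖ ≤ S') →
      ∀ z : ℂ, ‖z‖ ≤ r → ‖u z‖ ≤ r ^ M * S') ∧
    ∀ c : Fin (m + 1) → ℂ, (∀ k, ‖c k‖ ≤ 1) → (∃ k, ‖c k‖ = 1) →
      ∃ i ≤ m, c₁ * μ / ((M + L + q + 1 : ℕ) : ℝ) ≤
        ‖∑ k : Fin (m + 1), c k * tc (fun z => G z + u z) (M + L + q + 1 + i + k)‖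

/-- QWR (about 80 lines), robustness of the event.  `η' = n^α/(2(m+1)2^{n+2m})`, `r = 1/2`: by TCF on the circle
of radius `1/2` for both functions `‖tc F' T - tc F T‖ ≤ 2^T η'`, so each sum changes by at most
`(m+1) 2^{n+2m} η' = n^α/2`.  Hypotheses: hTcf. -/
def StQwr : Prop := ∀ (m : ℕ) (α : ℝ) (j n : ℕ) (F : ℂ → ℂ), DifferentiableOn ℂ F (ball 0 1) →
  j ≤ n → 1 ≤ n → (∀ c : Fin (m + 1) → ℂ, (∀ k, ‖c k‖ ≤ 1) → (∃ k, ‖c k‖ = 1) →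
    ∃ i ≤ m, ((j : ℝ) + 1) * (n : ℝ) ^ α ≤ ‖∑ k : Fin (m + 1), c k * tc F (n + i + k)‖) →
  Rob (QW m α j) F

/-- PER (about 300 lines), the perturbation.  `σ = 1/(NM)`, `G(z) = F(e^{-σ}z)` is univalent on `ball 0 (1+σ)`
(`e^σ ≥ 1+σ`), `d = σ ≤ 1`.  `‖G'(e^{it})‖ = e^{-σ}‖F'(e^{-σ+it})‖`, so with `μ = N^v/3`, `ρ = N^{-s₀}` the masses are
`≥ μ`; `S = ‖f'(0)‖(2MN)⁴` bounds `‖G'‖` on the unit circle (D2 with `R = 1`, `t = 0`, `1 - e^{-σ} ≥ σ/2`).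
`log(S/μ) ≤ C₈(1 + log N)`; `q = ⌈C₇(1 + C₈(1+log N))⌉` (`qρ² ≤ 1` for large `N`),
`L = M' = ⌈(100/d)(1+log(1/d))⌉`, `n = 2L+q+1`, `N ≤ n ≤ C₉N(1+log N)`.  `u` from WIN;
`f₁(z) = (G+u)(r₃z)`, `r₃ = 1 - 1/(2(n+2m+1))`, `r₃^{n+2m} ≥ 1/2`.  `f₁` is univalent on `ball 0 (1/r₃)`, `f₁ 0 = 0`.
Closeness on `‖z‖ ≤ r`: `‖G(r₃z) - f(z)‖ ≤ η/4 + Λ(σ + 1 - r₃) ≤ η/2` (`Λ` a Lipschitz constant of `f`), and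
`‖u(r₃z)‖ ≤ r^{M'}S' ≤ η/4`, where `S' = (sup|f| + η)·2/(1-r)` bounds `‖G'‖` on `‖z‖ ≤ r` (Cauchy; `F` is close to
`f` on `‖z‖ ≤ (1+r)/2`).  Event: `∑_k c_k tc f₁ (n+i+k) = r₃^{n+i} ∑_k (c_k r₃^k) tc (G+u)(n+i+k)` (TCD);
normalize `c_k r₃^k` by its sup norm `lam ∈ [1/2, 1]`: for some `i ≤ m` it is
`≥ (1/4) c₁ μ/n = c₁ N^v/(12 n) ≥ (j+1) n^α` for `N` large, because `12(j+1) n^{1+α} ≤ c₁ N^v`: if `1+α ≤ 0` use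
`n ≥ N` and `1+α < v`; otherwise `n ≤ C₉N(1+log N)` and `(1+log N)^{1+α} = o(N^{v-1-α})`.  Then QWR.
Hypotheses: hWin hQwr hTcd hD2. -/
def StPer : Prop := ∀ (m : ℕ) (α v : ℝ), α + 1 < v → ∀ (f : ℂ → ℂ) (R : ℝ), 1 < R →
  Un f (ball 0 R) → f 0 = 0 → ∀ (θ : Fin (m + 1) → ℝ) (M : ℕ) (s₀ : ℝ),
  Function.Injective (fun l => exp (θ l * I)) → 1 ≤ M → 0 < s₀ → ∀ (η r : ℝ) (j : ℕ), 0 < η →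
  0 ≤ r → r < 1 → ∃ N₀ : ℝ, ∀ (N : ℝ) (F : ℂ → ℂ), N₀ ≤ N → 1 ≤ N →
    Mass f θ M N v s₀ (η / 4) ((1 + r) / 2) F →
    ∃ f₁ : ℂ → ℂ, PP2 f₁ ∧ (∀ z : ℂ, ‖z‖ ≤ r → ‖f₁ z - f z‖ ≤ η) ∧ Rob (QW m α j) f₁

/-- NAD (about 60 lines).  Suppose `α` is admissible; use it for `F` and `k = m`: constant `K`.  Take
`j ≥ max(|K|, 1)`, `n` from `QW`, `c` from the admissibility at `n`; `μ = max_{i ≤ m}‖c i‖ ≥ 1` (`c 0 = 1`), the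
normalized vector `c/μ` has sup norm one; for some `i ≤ m`:
`j n^α < ‖∑ (c_k/μ) tc F (n+i+k)‖ ≤ K n^α/μ ≤ |K| n^α`, a contradiction.  Hypotheses: none. -/
def StNad : Prop := ∀ (m : ℕ) (α : ℝ) (F : ℂ → ℂ), 1 ≤ m → ClassS F → (∀ j : ℕ, QW m α j F) →
  ¬ Admissible m α

/-- LOW (about 200 lines), the lower half.  Let `α < vb m j Bb`, `ε = (vb m j Bb - α)/2`, `v = vb m j Bb + 1 - ε`,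
`α + 1 < v`.  `Sup β` for all `β < Bb`: SUP, with `HU_of_lt hNn` if `β ≥ 0` (choose `γ` between `β` and `Bb`).
Step: for `f` in `PP2`, `η, r, j`: MAS with `η/4`, `(1 + max r 0)/2` and PER give `f₁`; combine with INJ: `Rob` of the
conjunction `q j F = QW m α j F ∧ InjOn F (closedBall 0 (1 - 1/(j+2)))` (smaller `η`, larger radius).  GH with
`P = PP2`, `f₀ = id`, `η = 1/4`: `F` is analytic and injective on the disc, `F 0 = 0` (limit of `s_k 0`),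
`‖F'(0) - 1‖ ≤ 1/2` (Cauchy on the circle of radius `1/2`).  `f = F/F'(0)` is in `ClassS`,
`tc f n = tc F n/F'(0)` (TCD), `‖F'(0)‖ ≤ 2`, so `QW m α (2j) F` implies `QW m α j f`.  NAD.
Hypotheses: hNn hSup hMas hPer hNad hGH hInj hTcd. -/
def StLow : Prop := ∀ m j : ℕ, 1 ≤ m → 1 ≤ j → j ≤ m + 1 → 0 ≤ Bb → Bb ≤ 1 / 2 →
  (2 * (j : ℝ) - 1) * Bb ≤ 2 → (j = m + 1 ∨ 2 ≤ (2 * (j : ℝ) + 1) * Bb) →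
  ∀ α : ℝ, α < vb m j Bb → ¬ Admissible m α

end Helper5.SR
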